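import Pool.Agent.Work.MP_27623f_ag.HY.Pre

/-!
MP_27623f_ag, explicit family: everything needed to apply the criterion to the local ring at the
origin of the ring of invariants of a hypersurface.
-/

set_option autoImplicit false

namespace Pool.Agent.FSig.HY

open MvPolynomial

universe u

/-- The Frobenius endomorphism of `R` is finite. -/
def FrobFinite (R : Type*) [CommRing R] (p : ℕ) [ExpChar R p] : Prop := (frobenius R p).Finite

/-- The criterion applies to the hypersurface family: `R` is a Noetherian `F`-finite local ring,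
not a field, and has a graded Gorenstein cover. -/
theorem hyp_cover (k : Type u) [Field k] (p : ℕ) [Fact p.Prime] [CharP k p]
    (hk : (frobenius k p).Finite) {a b c : ℕ} (ha : 1 ≤ a) (hb : 2 ≤ b)
    (F : MvPolynomial (Option (Var a b c)) k) (f : ℕ) (hf : 2 ≤ f) (h : Good k F f) :
    ∃ (_ : (mo k F).IsPrime) (_ : CharP (Localization.AtPrime (mo k F)) p)
      (𝒯 : ℤ → Submodule (Localization.AtPrime (mo k F)) (TLoc (mo k F).primeCompl (Hyp k F)))
      (_ : GradedAlgebra 𝒯) (x : Fin (Fintype.card (Var a b c)) →
        TLoc (mo k F).primeCompl (Hyp k F)) (δ : Fin (Fintype.card (Var a b c)) → ℤ)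
      (v : TLoc (mo k F).primeCompl (Hyp k F)) (d : ℤ),
      GorCover (Localization.AtPrime (mo k F)) 𝒯 x δ v d ∧
      IsNoetherianRing (Localization.AtPrime (mo k F)) ∧
      IsNoetherianRing (TLoc (mo k F).primeCompl (Hyp k F)) ∧
      FrobFinite (Localization.AtPrime (mo k F)) p ∧
      IsLocalRing.maximalIdeal (Localization.AtPrime (mo k F)) ≠ ⊥ := by
  classical
  have hmax := mo_isMaximal k F f h (by omega)
  have hm : (mo k F).IsPrime := hmax.isPrime
  obtain ⟨iG⟩ := gr_graded k F f h
  have hft := inv_finiteType k F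
  have hN : IsNoetherianRing (inv k F) := Algebra.FiniteType.isNoetherianRing k _
  have hN2 : IsNoetherianRing (Localization.AtPrime (mo k F)) :=
    IsLocalization.isNoetherianRing (mo k F).primeCompl _ hN
  have hN3 : IsNoetherianRing (Hyp k F) := inferInstance
  have hN4 : IsNoetherianRing (TLoc (mo k F).primeCompl (Hyp k F)) :=
    IsLocalization.isNoetherianRing
      (Algebra.algebraMapSubmonoid (Hyp k F) (mo k F).primeCompl) _ hN3
  have hc : CharP (Localization.AtPrime (mo k F)) p :=
    charP_of_injective_algebraMap (algebraMap k (Localization.AtPrime (mo k F))).injective p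
  obtain ⟨iZ⟩ := overZero_graded (gr k F) (inv k F) (fun s hs => (mem_inv_iff k F s).1 hs)
  obtain ⟨iL⟩ := locGr_graded (R₀ := inv k F) (mo k F).primeCompl (B := Hyp k F) (G := ℤ)
    (overZero (gr k F) (inv k F) (fun s hs => (mem_inv_iff k F s).1 hs))
  exact ⟨hm, hc, _, iL, _, _, _, _, cover_loc (B := Hyp k F) (mo k F) _ _ _ _ _ (preCover k ha hb F f hf h),
    hN2, hN4, ffinite_loc p hk hft _, max_ne_bot k ha (by omega) F f h⟩

end Pool.Agent.FSig.HY
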