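import Pool.Agent.Work.MP_27623f_ag.HY.HDefs

/-!
`S = k[x, y, t] / (F)` is free over `P = k[x_1.., y, t]` with basis
`1, x_0, ..., x_0^{f-1}`; coordinates.

PROOF.  `e = optionEquivLeft k (Var a b c)` maps `k[Option Var]` isomorphically to `P[X]`,
`X none ↦ Polynomial.X`, `X (some i) ↦ C (X i)` (`optionEquivLeft_X_none`,
`optionEquivLeft_X_some`, `rename some q ↦ C q`).  So `S ≃ P[X] / (e F) = AdjoinRoot (e F)`
(`Ideal.quotientEquiv`), and `AdjoinRoot.powerBasis'` of the monic polynomial `e F` has dimension
`(e F).natDegree`.  The degree is `f`: the leading term `x_0^N` of `F` (coefficient `1`) is a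
monomial of `F` of weight `N`, so `N = f` because `F` is homogeneous of weight `f`
(coefficient of `Finsupp.single none N` in `F` is the constant coefficient of the leading
coefficient of `e F`; `IsWeightedHomogeneous` applied to it).  `κ` is the coordinate map
(`Basis.equivFun`) composed with these isomorphisms.
-/

set_option autoImplicit false

namespace Pool.Agent.FSig.HY

open MvPolynomial

universe u

private theorem nat_deg (k : Type u) [Field k] {a b c : ℕ}
    (F : MvPolynomial (Option (Var a b c)) k) (f : ℕ) (h : Good k F f) :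
    (optionEquivLeft k (Var a b c) F).natDegree = f := by
  set N := (optionEquivLeft k (Var a b c) F).natDegree with hN
  have h1 : (optionEquivLeft k (Var a b c) F).coeff N = 1 := h.monic
  have h2 : coeff ((0 : Var a b c →₀ ℕ).optionElim N) F = 1 := by
    rw [← optionEquivLeft_coeff_coeff, h1, coeff_zero_one]
  have h3 : coeff (Finsupp.single (none : Option (Var a b c)) N) F ≠ 0 := by
    rw [← Finsupp.optionElim_zero, h2]
    exact one_ne_zero
  have h4 := h.hom h3
  rw [Finsupp.weight_single] at h4
  have h5 : (N : ℤ) = (f : ℤ) := by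
    simpa [wo] using h4
  exact_mod_cast h5

private noncomputable def toAdj (k : Type u) [Field k] {a b c : ℕ}
    (F : MvPolynomial (Option (Var a b c)) k) :
    Hyp k F →+* AdjoinRoot (optionEquivLeft k (Var a b c) F) :=
  Ideal.Quotient.lift (Ideal.span {F})
    ((AdjoinRoot.mk (optionEquivLeft k (Var a b c) F)).comp
      (optionEquivLeft k (Var a b c)).toRingEquiv.toRingHom)
    (fun p hp => by
      obtain ⟨r, rfl⟩ := Ideal.mem_span_singleton.mp hp
      change AdjoinRoot.mk _ (optionEquivLeft k (Var a b c) (F * r)) = 0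
      rw [map_mul]
      exact AdjoinRoot.mk_eq_zero.mpr (dvd_mul_right _ _))

private theorem toAdj_mk (k : Type u) [Field k] {a b c : ℕ}
    (F : MvPolynomial (Option (Var a b c)) k) (p : MvPolynomial (Option (Var a b c)) k) :
    toAdj k F (Ideal.Quotient.mk _ p) =
      AdjoinRoot.mk (optionEquivLeft k (Var a b c) F) (optionEquivLeft k (Var a b c) p) := rfl

private theorem toAdj_inj (k : Type u) [Field k] {a b c : ℕ}
    (F : MvPolynomial (Option (Var a b c)) k) : Function.Injective (toAdj k F) := by
  rw [injective_iff_map_eq_zero]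
  intro s hs
  obtain ⟨p, rfl⟩ := Ideal.Quotient.mk_surjective s
  rw [toAdj_mk, AdjoinRoot.mk_eq_zero] at hs
  obtain ⟨r, hr⟩ := hs
  rw [Ideal.Quotient.eq_zero_iff_mem, Ideal.mem_span_singleton]
  refine ⟨(optionEquivLeft k (Var a b c)).symm r, ?_⟩
  apply (optionEquivLeft k (Var a b c)).injective
  rw [map_mul, AlgEquiv.apply_symm_apply, hr]

private theorem ev_rename (k : Type u) [Field k] {a b c : ℕ} (q : MvPolynomial (Var a b c) k) :
    optionEquivLeft k (Var a b c) (rename some q) = Polynomial.C q := by
  induction q using MvPolynomial.induction_on with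
  | C r => rw [rename_C, optionEquivLeft_C]
  | add p q hp hq => rw [map_add, map_add, hp, hq, map_add]
  | mul_X p i hp => rw [map_mul, map_mul, hp, rename_X, optionEquivLeft_X_some, map_mul]

theorem exists_coord (k : Type u) [Field k] {a b c : ℕ}
    (F : MvPolynomial (Option (Var a b c)) k) (f : ℕ) (h : Good k F f) :
    ∃ κ : Hyp k F →+ (Fin f → MvPolynomial (Var a b c) k), Function.Injective κ ∧
      (∀ (q : MvPolynomial (Var a b c) k) (s : Hyp k F),
        κ (Ideal.Quotient.mk _ (rename some q) * s) = fun j => q * κ s j) ∧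
      ∀ j : Fin f, κ (xi k F none ^ (j : ℕ)) = Pi.single j 1 := by
  have hm : (optionEquivLeft k (Var a b c) F).Monic := h.monic
  have hd := nat_deg k F f h
  refine ⟨{ toFun := fun s j => (AdjoinRoot.modByMonicHom hm (toAdj k F s)).coeff (j : ℕ)
            map_zero' := ?_
            map_add' := ?_ }, ?_, ?_, ?_⟩
  · funext j
    rw [map_zero, map_zero, Polynomial.coeff_zero]
    rfl
  · intro s t
    funext j
    rw [map_add, map_add, Polynomial.coeff_add]
    rfl
  · intro s t hst
    apply toAdj_inj k F
    apply (AdjoinRoot.mk_leftInverse hm).injective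
    have key : ∀ z : AdjoinRoot (optionEquivLeft k (Var a b c) F), ∀ n : ℕ, f ≤ n →
        (AdjoinRoot.modByMonicHom hm z).coeff n = 0 := by
      intro z n hn
      obtain ⟨p, rfl⟩ := AdjoinRoot.mk_surjective z
      rw [AdjoinRoot.modByMonicHom_mk]
      apply Polynomial.coeff_eq_zero_of_degree_lt
      refine lt_of_lt_of_le (Polynomial.degree_modByMonic_lt _ hm) ?_
      rw [Polynomial.degree_eq_natDegree hm.ne_zero, hd]
      exact_mod_cast hn
    ext1 n
    by_cases hn : n < f
    · exact congrFun hst ⟨n, hn⟩
    · rw [key _ n (by omega), key _ n (by omega)]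
  · intro q s
    funext j
    change (AdjoinRoot.modByMonicHom hm (toAdj k F (Ideal.Quotient.mk _ (rename some q) * s))).coeff
      (j : ℕ) = q * (AdjoinRoot.modByMonicHom hm (toAdj k F s)).coeff (j : ℕ)
    have h1 : toAdj k F (Ideal.Quotient.mk _ (rename some q) * s) = q • toAdj k F s := by
      rw [map_mul, toAdj_mk, ev_rename, AdjoinRoot.mk_C, Algebra.smul_def]
      rfl
    rw [h1, map_smul, Polynomial.coeff_smul, smul_eq_mul]
  · intro j
    funext i
    change (AdjoinRoot.modByMonicHom hm (toAdj k F (xi k F none ^ (j : ℕ)))).coeff (i : ℕ) = _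
    have h1 : toAdj k F (xi k F none ^ (j : ℕ)) =
        AdjoinRoot.mk (optionEquivLeft k (Var a b c) F) (Polynomial.X ^ (j : ℕ)) := by
      rw [map_pow, xi, toAdj_mk, optionEquivLeft_X_none, map_pow]
    rw [h1, AdjoinRoot.modByMonicHom_mk, (Polynomial.modByMonic_eq_self_iff hm).mpr ?_]
    · rw [Polynomial.coeff_X_pow]
      by_cases hij : i = j
      · subst hij
        rw [if_pos rfl, Pi.single_eq_same]
      · rw [if_neg (fun h' => hij (Fin.ext h')), Pi.single_eq_of_ne hij]
    · rw [Polynomial.degree_X_pow, Polynomial.degree_eq_natDegree hm.ne_zero, hd]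
      exact_mod_cast j.2

end Pool.Agent.FSig.HY
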