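import Pool.Agent.Work.MP_27623f_ag.HY.LocDefs

/-!
STUB CoverLoc (size M).  `PreCover` localizes to `GorCover`.

PROOF.  `R = Localization.AtPrime m`, `T = TLoc m.primeCompl B`, `ι : B → T`.  Every element of
`T` is `ι s / w`, `w ∉ m` (`IsLocalization.mk'_surjective`, the denominators are units of `T`
coming from `R`).  For an ideal `𝔞 = (x_i, i ∈ T₀)` of `B`: `ι s ∈ 𝔞 T` iff `w s ∈ 𝔞` for some
`w ∉ m` (`IsLocalization.algebraMap_mem_map_algebraMap_iff`, `Ideal.map_span`,
`Set.image_image`).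
* `inj`: `R → T` is injective because `R₀ → B` is (`IsLocalization.map_injective_of_injective`
  style; or: `r / w ↦ 0` gives `u r = 0` in `B`, `u ∉ m`, so `u r = 0` in `R₀`).
* `zero`: an element of `locGr 0` is an `R`-linear combination of `ι s`, `s ∈ 𝒞 0`, i.e. of
  elements of the image of `R` (`Submodule.span_induction`).
* `mem_x`, `mem_v`: `Submodule.subset_span`.
* `reg`: `x_i s / w ∈ 𝔞 T` gives `u x_i s ∈ 𝔞`, so `u s ∈ 𝔞` by `reg` of `h`.
* `primary`: `(maximalIdeal R)^c` is the extension of `m^c`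
  (`Localization.AtPrime.map_eq_maximalIdeal`, `Ideal.map_pow`), and both ways around the square
  `R₀ → R → T`, `R₀ → B → T` agree (`IsScalarTower`, `Ideal.map_map`).
* `v_not_mem`: if `ι v ∈ 𝔞 T` then `w v ∈ 𝔞` with `w ∉ m`, contradiction to `v_not_mem` of `h`.
* `socle`: for `s ∈ T`, `s = ι s' / w` not in `𝔞 T`, `s' ∉ 𝔞`; take `t` with
  `t s' - v ∈ 𝔞`; then `ι(t) w * s - ι v ∈ 𝔞 T`.
* `free`: map the membership to `T`; `ι(𝒞 g) ⊆ locGr g`.
* `bal`: `bal` of `h`.
-/

set_option autoImplicit false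

namespace Pool.Agent.FSig.HY

private theorem cl_tower {R₀ : Type*} [CommRing R₀] (m : Ideal R₀) [m.IsPrime] {B : Type*}
    [CommRing B] [Algebra R₀ B] (r : R₀) :
    algebraMap (Localization.AtPrime m) (TLoc m.primeCompl B)
        (algebraMap R₀ (Localization.AtPrime m) r) =
      algebraMap B (TLoc m.primeCompl B) (algebraMap R₀ B r) := by
  rw [← IsScalarTower.algebraMap_apply R₀ (Localization.AtPrime m) (TLoc m.primeCompl B),
    ← IsScalarTower.algebraMap_apply R₀ B (TLoc m.primeCompl B)]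

private theorem cl_mem {R₀ : Type*} [CommRing R₀] (m : Ideal R₀) [m.IsPrime] {B : Type*}
    [CommRing B] [Algebra R₀ B] (Y : Set B) (s : B) :
    algebraMap B (TLoc m.primeCompl B) s ∈
        Ideal.span (algebraMap B (TLoc m.primeCompl B) '' Y) ↔
      ∃ w ∉ m, algebraMap R₀ B w * s ∈ Ideal.span Y := by
  rw [← Ideal.map_span, IsLocalization.algebraMap_mem_map_algebraMap_iff
    (Algebra.algebraMapSubmonoid B m.primeCompl)]
  constructor
  · rintro ⟨_, ⟨w, hw, rfl⟩, h⟩
    exact ⟨w, hw, h⟩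
  · rintro ⟨w, hw, h⟩
    exact ⟨_, ⟨w, hw, rfl⟩, h⟩

private theorem cl_unit {R₀ : Type*} [CommRing R₀] (m : Ideal R₀) [m.IsPrime] {B : Type*}
    [CommRing B] [Algebra R₀ B] {w : R₀} (hw : w ∉ m) :
    IsUnit (algebraMap B (TLoc m.primeCompl B) (algebraMap R₀ B w)) :=
  IsLocalization.map_units (TLoc m.primeCompl B)
    (⟨_, ⟨w, hw, rfl⟩⟩ : Algebra.algebraMapSubmonoid B m.primeCompl)

private theorem cl_surj {R₀ : Type*} [CommRing R₀] (m : Ideal R₀) [m.IsPrime] {B : Type*}
    [CommRing B] [Algebra R₀ B] (z : TLoc m.primeCompl B) :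
    ∃ s : B, ∃ w ∉ m, algebraMap B (TLoc m.primeCompl B) (algebraMap R₀ B w) * z =
      algebraMap B (TLoc m.primeCompl B) s := by
  obtain ⟨⟨s, ⟨_, ⟨w, hw, rfl⟩⟩⟩, h⟩ :=
    IsLocalization.surj (Algebra.algebraMapSubmonoid B m.primeCompl) z
  refine ⟨s, w, hw, ?_⟩
  rw [mul_comm]
  exact h

theorem cover_loc {R₀ : Type*} [CommRing R₀] (m : Ideal R₀) [m.IsPrime] {B : Type*} [CommRing B]
    [Algebra R₀ B] {G : Type*} [AddCommGroup G] [DecidableEq G] (𝒞 : G → Submodule R₀ B)
    {n : ℕ} (x : Fin n → B) (δ : Fin n → G) (v : B) (d : G) (h : PreCover R₀ m 𝒞 x δ v d) :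
    GorCover (Localization.AtPrime m) (locGr m.primeCompl 𝒞)
      (fun i => algebraMap B (TLoc m.primeCompl B) (x i)) δ
      (algebraMap B (TLoc m.primeCompl B) v) d := by
  have hrange : Set.range (fun i => algebraMap B (TLoc m.primeCompl B) (x i)) =
      algebraMap B (TLoc m.primeCompl B) '' Set.range x := by
    rw [← Set.range_comp]
    rfl
  have himage : ∀ T₀ : Finset (Fin n),
      (fun i => algebraMap B (TLoc m.primeCompl B) (x i)) '' (T₀ : Set (Fin n)) =
        algebraMap B (TLoc m.primeCompl B) '' (x '' (T₀ : Set (Fin n))) := by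
    intro T₀
    rw [Set.image_image]
  refine
    { inj := ?_
      zero := ?_
      mem_x := fun i => Submodule.subset_span ⟨x i, h.mem_x i, rfl⟩
      reg := ?_
      primary := ?_
      mem_v := Submodule.subset_span ⟨v, h.mem_v, rfl⟩
      v_not_mem := ?_
      socle := ?_
      free := ?_
      bal := h.bal }
  · refine (injective_iff_map_eq_zero _).2 fun r hr => ?_
    obtain ⟨⟨r0, w⟩, hw⟩ := IsLocalization.surj m.primeCompl r
    simp only at hw
    have h1 : algebraMap B (TLoc m.primeCompl B) (algebraMap R₀ B r0) = 0 := by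
      rw [← cl_tower m r0, ← hw, map_mul, hr, zero_mul]
    obtain ⟨⟨_, ⟨u, hu, rfl⟩⟩, h2⟩ := (IsLocalization.map_eq_zero_iff
      (Algebra.algebraMapSubmonoid B m.primeCompl) (TLoc m.primeCompl B) _).1 h1
    have h3 : u * r0 = 0 := by
      apply h.inj
      rw [map_mul, map_zero]
      exact h2
    have h4 : algebraMap R₀ (Localization.AtPrime m) r0 = 0 :=
      (IsLocalization.map_eq_zero_iff m.primeCompl (Localization.AtPrime m) _).2 ⟨⟨u, hu⟩, h3⟩
    rw [h4] at hw
    exact (IsLocalization.map_units (Localization.AtPrime m) w).mul_left_eq_zero.1 hw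
  · intro s hs
    induction hs using Submodule.span_induction with
    | mem s hs =>
      obtain ⟨b, hb, rfl⟩ := hs
      obtain ⟨r, rfl⟩ := h.zero b hb
      exact ⟨algebraMap R₀ (Localization.AtPrime m) r, cl_tower m r⟩
    | zero => exact ⟨0, map_zero _⟩
    | add s t _ _ h1 h2 =>
      obtain ⟨r, rfl⟩ := h1
      obtain ⟨r', rfl⟩ := h2
      exact ⟨r + r', map_add _ _ _⟩
    | smul a s _ h1 =>
      obtain ⟨r, rfl⟩ := h1
      refine ⟨a * r, ?_⟩
      rw [map_mul, Algebra.smul_def]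
  · intro i T₀ hi z hz
    rw [himage] at hz ⊢
    obtain ⟨s, w, hw, hs⟩ := cl_surj m z
    have hu := cl_unit (B := B) m hw
    have h1 : algebraMap B (TLoc m.primeCompl B) (x i * s) ∈
        Ideal.span (algebraMap B (TLoc m.primeCompl B) '' (x '' (T₀ : Set (Fin n)))) := by
      rw [map_mul, ← hs, mul_left_comm]
      exact Ideal.mul_mem_left _ _ hz
    obtain ⟨w', hw', h2⟩ := (cl_mem m _ _).1 h1
    rw [mul_left_comm] at h2
    have h3 := h.reg i T₀ hi _ h2
    have h4 := (cl_mem m _ _).2 ⟨w', hw', h3⟩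
    rw [← hs] at h4
    exact (Ideal.unit_mul_mem_iff_mem _ hu).1 h4
  · obtain ⟨c, hc⟩ := h.primary
    refine ⟨c, ?_⟩
    rw [hrange, ← Ideal.map_span, ← Localization.AtPrime.map_eq_maximalIdeal, ← Ideal.map_pow,
      Ideal.map_map]
    have h1 : (algebraMap (Localization.AtPrime m) (TLoc m.primeCompl B)).comp
        (algebraMap R₀ (Localization.AtPrime m)) =
        (algebraMap B (TLoc m.primeCompl B)).comp (algebraMap R₀ B) :=
      RingHom.ext fun r => cl_tower m r
    rw [h1, ← Ideal.map_map]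
    exact Ideal.map_mono hc
  · intro h1
    rw [hrange] at h1
    obtain ⟨w, hw, h2⟩ := (cl_mem m _ _).1 h1
    exact h.v_not_mem w hw h2
  · intro g z _ hz
    rw [hrange] at hz ⊢
    obtain ⟨s, w, hw, hs⟩ := cl_surj m z
    have hu := cl_unit (B := B) m hw
    have h1 : s ∉ Ideal.span (Set.range x) := by
      intro h2
      apply hz
      rw [← Ideal.unit_mul_mem_iff_mem _ hu, hs, ← Ideal.map_span]
      exact Ideal.mem_map_of_mem _ h2
    obtain ⟨t, ht⟩ := h.socle s h1
    refine ⟨algebraMap B (TLoc m.primeCompl B) t *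
      algebraMap B (TLoc m.primeCompl B) (algebraMap R₀ B w), ?_⟩
    rw [mul_assoc, hs, ← map_mul, ← map_sub, ← Ideal.map_span]
    exact Ideal.mem_map_of_mem _ ht
  · intro i
    obtain ⟨N, hN⟩ := h.free i
    refine ⟨N, ?_⟩
    have h1 := Ideal.mem_map_of_mem (algebraMap B (TLoc m.primeCompl B)) hN
    rw [map_prod, Ideal.map_span] at h1
    simp only [map_pow] at h1
    exact Ideal.span_mono Submodule.subset_span h1

end Pool.Agent.FSig.HY
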