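import Pool.Agent.Work.MP_27623f_ag.Defs

/-!
MP_27623f_ag, explicit family: definitions.  Hypersurfaces `F = 0` in the variables `x` (weight 1),
`y` (weight -1), `t` (weight 0) and the local ring at the origin of the ring of invariants.
-/

set_option autoImplicit false

namespace Pool.Agent.FSig.HY

open MvPolynomial

universe u v w

/-- The variables other than `x_0`: `x_1, ..., x_a` (`Sum.inl`), `y_1, ..., y_b`
(`Sum.inr (Sum.inl _)`), `t_1, ..., t_c` (`Sum.inr (Sum.inr _)`).  The variable `x_0` is `none` in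
`Option (Var a b c)`. -/
abbrev Var (a b c : ℕ) : Type := Fin a ⊕ (Fin b ⊕ Fin c)

/-- The weights: `1` for the `x_i`, `-1` for the `y_j`, `0` for the `t_l`. -/
def wt {a b c : ℕ} : Var a b c → ℤ
  | Sum.inl _ => 1
  | Sum.inr (Sum.inl _) => -1
  | Sum.inr (Sum.inr _) => 0

/-- The weights of all variables, with weight `1` for `x_0 = none`. -/
def wo {a b c : ℕ} : Option (Var a b c) → ℤ
  | none => 1
  | some i => wt i

variable (k : Type u) [Field k] {a b c : ℕ}

/-- The hypersurface ring `S = k[x, y, t] / (F)`. -/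
abbrev Hyp (F : MvPolynomial (Option (Var a b c)) k) : Type u :=
  MvPolynomial (Option (Var a b c)) k ⧸ Ideal.span {F}

/-- The class of the variable `i` in `S`. -/
noncomputable def xi (F : MvPolynomial (Option (Var a b c)) k) (i : Option (Var a b c)) : Hyp k F :=
  Ideal.Quotient.mk _ (X i)

/-- The products `x_i y_j` and the `t_l`. -/
def gens (F : MvPolynomial (Option (Var a b c)) k) : Set (Hyp k F) :=
  {s | ∃ i j : Option (Var a b c), wo i = 1 ∧ wo j = -1 ∧ s = xi k F i * xi k F j} ∪
    {s | ∃ i : Option (Var a b c), wo i = 0 ∧ s = xi k F i}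

/-- The ring of invariants: the subalgebra `k[x_i y_j, t_l]` of `S`. -/
noncomputable def inv (F : MvPolynomial (Option (Var a b c)) k) : Subalgebra k (Hyp k F) :=
  Algebra.adjoin k (gens k F)

/-- The ideal of the ring of invariants generated by the `x_i y_j` and the `t_l`. -/
noncomputable def mo (F : MvPolynomial (Option (Var a b c)) k) : Ideal (inv k F) :=
  Ideal.span {s | (s : Hyp k F) ∈ gens k F}

/-- The data of `GorCover` before localization: `R` is any commutative ring and `m` an ideal. -/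
structure PreCover (R : Type*) [CommRing R] (m : Ideal R) {S : Type*} [CommRing S]
    [Algebra R S] {G : Type*} [AddCommGroup G] (𝒜 : G → Submodule R S) {n : ℕ}
    (x : Fin n → S) (δ : Fin n → G) (v : S) (d : G) : Prop where
  inj : Function.Injective (algebraMap R S)
  zero : ∀ s ∈ 𝒜 0, ∃ r : R, algebraMap R S r = s
  mem_x : ∀ i, x i ∈ 𝒜 (δ i)
  reg : ∀ (i : Fin n) (T : Finset (Fin n)), i ∉ T → ∀ s : S,
    x i * s ∈ Ideal.span (x '' T) → s ∈ Ideal.span (x '' T)
  primary : ∃ c : ℕ, (m ^ c).map (algebraMap R S) ≤ Ideal.span (Set.range x)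
  mem_v : v ∈ 𝒜 d
  v_not_mem : ∀ r : R, r ∉ m → algebraMap R S r * v ∉ Ideal.span (Set.range x)
  socle : ∀ s : S, s ∉ Ideal.span (Set.range x) → ∃ t : S, t * s - v ∈ Ideal.span (Set.range x)
  free : ∀ i, ∃ N : ℕ, ∏ j ∈ Finset.univ.erase i, x j ^ N ∈
    Ideal.span (𝒜 (δ i - d) : Set S)
  bal : ∀ N : ℕ, ∃ κ : Fin n → ℕ, (∀ i, N ≤ κ i) ∧ d + ∑ i, κ i • δ i = 0

end Pool.Agent.FSig.HY
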