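import Pool.Agent.Work.MP_27623f_ag.HY.LocDefs

/-!
STUB Ffin (size M).  A finitely generated algebra over an F-finite field and its localizations
are F-finite.

PROOF.  (1) Let `A` be generated over `k` by the finite set `g_1, ..., g_n`, and `k` spanned over
`k^p` by `b_1, ..., b_m`.  The `A^p`-submodule of `A` spanned by the finitely many elements
`b_i g_1^{e_1} ... g_n^{e_n}`, `0 <= e_j < p`, is all of `A`: it contains the image of `k`, and
all monomials (divide the exponents by `p`), hence everything.  So `frobenius A p` is finite
(`RingHom.Finite` means: `A` with the action `r • s = r^p s` is a finite module).  Equivalent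
route: `MvPolynomial (Fin n) k` is F-finite by induction on the number of variables (or directly),
and quotients of F-finite rings are F-finite: if `π : P → A` is surjective then
`frobenius A ∘ π = π ∘ frobenius P` is finite, so `frobenius A` is finite
(`RingHom.Finite.of_comp_finite`).
(2) Localization: if `s_1, ..., s_r` span `A` over `A^p` then they span `A_M` over `(A_M)^p`:
`a / w = a w^{p-1} / w^p`.
-/

set_option autoImplicit false

namespace Pool.Agent.FSig.HY

private theorem frob_isIntegral (R : Type*) [CommRing R] (p : ℕ) [Fact p.Prime] [CharP R p] :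
    (frobenius R p).IsIntegral := by
  intro a
  refine ⟨Polynomial.X ^ p - Polynomial.C a,
    Polynomial.monic_X_pow_sub_C a (Fact.out : p.Prime).ne_zero, ?_⟩
  simp [frobenius_def]

private theorem ffinite_alg {k : Type*} [Field k] (p : ℕ) [Fact p.Prime] [CharP k p]
    (hk : (frobenius k p).Finite) {A : Type*} [CommRing A] [Algebra k A] [CharP A p]
    (hA : Algebra.FiniteType k A) : (frobenius A p).Finite := by
  rw [RingHom.finite_iff_isIntegral_and_finiteType]
  refine ⟨frob_isIntegral A p, ?_⟩
  have h1 : (algebraMap k A).FiniteType := RingHom.finiteType_algebraMap.2 hA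
  have h2 : ((algebraMap k A).comp (frobenius k p)).FiniteType :=
    h1.comp hk.to_finiteType
  have h3 : (algebraMap k A).comp (frobenius k p) = (frobenius A p).comp (algebraMap k A) := by
    ext x
    simp [frobenius_def]
  rw [h3] at h2
  exact RingHom.FiniteType.of_comp_finiteType h2

theorem ffinite_loc {k : Type*} [Field k] (p : ℕ) [Fact p.Prime] [CharP k p]
    (hk : (frobenius k p).Finite) {A : Type*} [CommRing A] [Algebra k A]
    (hA : Algebra.FiniteType k A) (M : Submonoid A) [CharP (Localization M) p] :
    (frobenius (Localization M) p).Finite := by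
  have hp : p.Prime := Fact.out
  have : Nontrivial (Localization M) := CharP.nontrivial_of_char_ne_one hp.ne_one
  have : Nontrivial A := (algebraMap A (Localization M)).domain_nontrivial
  have : CharP A p := charP_of_injective_algebraMap (algebraMap k A).injective p
  have hfA := ffinite_alg p hk hA
  have hloc : IsLocalization (M.map (frobenius A p)) (Localization M) := by
    refine ⟨?_, ?_, ?_⟩
    · rintro ⟨y, hy⟩
      obtain ⟨m, hm, rfl⟩ := hy
      have h1 := (IsLocalization.map_units (Localization M) ⟨m, hm⟩).pow p
      rw [← map_pow] at h1
      exact h1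
    · intro z
      obtain ⟨⟨a, w⟩, h⟩ := IsLocalization.surj M z
      refine ⟨(a * (w : A) ^ (p - 1), ⟨frobenius A p w, ⟨w, w.2, rfl⟩⟩), ?_⟩
      have h2 : frobenius A p w = (w : A) * (w : A) ^ (p - 1) := by
        rw [frobenius_def, ← pow_succ', Nat.sub_add_cancel hp.one_le]
      have h3 : z * algebraMap A (Localization M) (frobenius A p w) =
          algebraMap A (Localization M) (a * (w : A) ^ (p - 1)) := by
        rw [h2, map_mul, map_mul, ← mul_assoc, h]
      exact h3
    · intro x y hxy
      obtain ⟨c, hc⟩ := (IsLocalization.eq_iff_exists M (Localization M)).1 hxy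
      refine ⟨⟨frobenius A p c, ⟨c, c.2, rfl⟩⟩, ?_⟩
      have h2 : frobenius A p c = (c : A) ^ (p - 1) * (c : A) := by
        rw [frobenius_def, ← pow_succ, Nat.sub_add_cancel hp.one_le]
      have h3 : frobenius A p c * x = frobenius A p c * y := by
        rw [h2, mul_assoc, mul_assoc, hc]
      exact h3
  have h4 := RingHom.finite_localizationPreserves (frobenius A p) M (Localization M)
    (Localization M) hfA
  have h5 : IsLocalization.map (Localization M) (frobenius A p) (Submonoid.le_comap_map M) =
      frobenius (Localization M) p := by
    apply IsLocalization.ringHom_ext M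
    ext x
    simp [frobenius_def]
  rw [h5] at h4
  exact h4

end Pool.Agent.FSig.HY
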