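import Pool.Agent.Work.MP_27623f_ag.HY.HDefs

/-!
STUB FreeBal (size S-M).  The freeness condition and the balancing condition.

PROOF.
* `free_hyp`: `b ≥ 2`, so there is a `y`-variable `j = Sum.inr (Sum.inl _) ≠ i`.  Put
  `N = f - 1 - wt i` as a natural number (`wt i ≤ 1`, `f ≥ 2`, so `N ≥ 0`).
  Then `xi (some j)^N ∈ gr (-N) = gr (wt i - (f - 1))` (class of `X^N`, weight `-N`;
  `isWeightedHomogeneous_X`, `.pow`), and it divides the product.
* `bal_hyp`: let `M = b N`, put `κ = M` on the `x`-variables, `N` on the `t`-variables and on the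
  `y`-variables different from `y_0`, and `κ(y_0) = f - 1 + a M - (b - 1) N ≥ N` (`a ≥ 1`).
  Sum over `Var = Fin a ⊕ (Fin b ⊕ Fin c)`: `Fintype.sum_sum_type`.
-/

set_option autoImplicit false

namespace Pool.Agent.FSig.HY

open MvPolynomial

universe u

theorem free_hyp (k : Type u) [Field k] {a b c : ℕ} (hb : 2 ≤ b)
    (F : MvPolynomial (Option (Var a b c)) k) (f : ℕ) (hf : 2 ≤ f) (i : Var a b c) :
    ∃ N : ℕ, ∏ j ∈ Finset.univ.erase i, xi k F (some j) ^ N ∈
      Ideal.span (gr k F (wt i - ((f - 1 : ℕ) : ℤ)) : Set (Hyp k F)) := by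
  obtain ⟨j, hj, hji⟩ : ∃ j : Var a b c, wt j = -1 ∧ j ≠ i := by
    rcases i with i | i | i
    · exact ⟨Sum.inr (Sum.inl ⟨0, by omega⟩), rfl, fun h => Sum.inr_ne_inl h⟩
    · by_cases hi : i = ⟨0, by omega⟩
      · refine ⟨Sum.inr (Sum.inl ⟨1, by omega⟩), rfl, fun h => ?_⟩
        have h1 := Sum.inl_injective (Sum.inr_injective h)
        rw [hi, Fin.mk.injEq] at h1
        exact one_ne_zero h1
      · exact ⟨Sum.inr (Sum.inl ⟨0, by omega⟩), rfl,
          fun h => hi (Sum.inl_injective (Sum.inr_injective h)).symm⟩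
    · exact ⟨Sum.inr (Sum.inl ⟨0, by omega⟩), rfl, fun h => Sum.inl_ne_inr (Sum.inr_injective h)⟩
  have hw : wt i ≤ 1 := by
    rcases i with i | i | i <;> simp [wt]
  have hf1 : (1 : ℤ) ≤ ((f - 1 : ℕ) : ℤ) := by
    have : 1 ≤ f - 1 := by omega
    exact_mod_cast this
  obtain ⟨N, hN⟩ : ∃ N : ℕ, (N : ℤ) = ((f - 1 : ℕ) : ℤ) - wt i :=
    ⟨(((f - 1 : ℕ) : ℤ) - wt i).toNat, Int.toNat_of_nonneg (by linarith)⟩
  refine ⟨N, Ideal.mem_of_dvd _ (Finset.dvd_prod_of_mem (fun j => xi k F (some j) ^ N)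
    (Finset.mem_erase.2 ⟨hji, Finset.mem_univ j⟩)) (Ideal.subset_span ?_)⟩
  refine ⟨X (some j) ^ N, ?_, ?_⟩
  · have h1 : (X (some j) ^ N : MvPolynomial (Option (Var a b c)) k).IsWeightedHomogeneous wo
        (N • wo (some j)) := (isWeightedHomogeneous_X k wo (some j)).pow N
    have h2 : N • wo (some j) = wt i - ((f - 1 : ℕ) : ℤ) := by
      change N • wt j = _
      rw [hj, nsmul_eq_mul, hN]
      ring
    rw [h2] at h1
    exact h1
  · exact map_pow (Ideal.Quotient.mkₐ k (Ideal.span {F})) (X (some j)) N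

theorem bal_hyp {a b c : ℕ} (ha : 1 ≤ a) (hb : 2 ≤ b) (f : ℕ) (N : ℕ) :
    ∃ κ : Var a b c → ℕ, (∀ i, N ≤ κ i) ∧ ((f - 1 : ℕ) : ℤ) + ∑ i, κ i • wt i = 0 := by
  obtain ⟨K, hK⟩ : ∃ K : ℕ, (K : ℤ) = ((f - 1 : ℕ) : ℤ) + a * (b * N) - (b - 1) * N ∧ N ≤ K := by
    have h1 : N + (b - 1) * N ≤ (f - 1) + a * (b * N) := by
      have h2 : N + (b - 1) * N = b * N := by
        obtain ⟨b', rfl⟩ : ∃ b', b = b' + 1 := ⟨b - 1, by omega⟩
        rw [Nat.add_sub_cancel]
        ring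
      rw [h2]
      have h3 : 1 * (b * N) ≤ a * (b * N) := Nat.mul_le_mul_right _ ha
      omega
    obtain ⟨K, hK⟩ := Nat.exists_eq_add_of_le h1
    refine ⟨N + K, ?_, Nat.le_add_right _ _⟩
    have h4 : ((f - 1 : ℕ) : ℤ) + a * (b * N) = N + ((b - 1 : ℕ) : ℤ) * N + K := by
      exact_mod_cast hK
    have h5 : ((b - 1 : ℕ) : ℤ) = (b : ℤ) - 1 := by
      have : 1 ≤ b := by omega
      push_cast [this]
      ring
    rw [h4, h5]
    push_cast
    ring
  let y0 : Fin b := ⟨0, by omega⟩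
  refine ⟨fun v => match v with
    | Sum.inl _ => b * N
    | Sum.inr (Sum.inl y) => if y = y0 then K else N
    | Sum.inr (Sum.inr _) => N, ?_, ?_⟩
  · rintro (v | v | v)
    · exact Nat.le_mul_of_pos_left _ (by omega)
    · change N ≤ if v = y0 then K else N
      split_ifs
      · exact hK.2
      · exact le_rfl
    · exact le_rfl
  · rw [Fintype.sum_sum_type, Fintype.sum_sum_type]
    simp only [wt, nsmul_eq_mul, mul_one, mul_zero, Finset.sum_const_zero, add_zero,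
      Finset.sum_const, Finset.card_univ, Fintype.card_fin, mul_neg, Finset.sum_neg_distrib]
    have h6 : ∑ y : Fin b, (((if y = y0 then K else N : ℕ)) : ℤ) = (b : ℤ) * N + (K - N) := by
      have h7 : ∀ y : Fin b, (((if y = y0 then K else N : ℕ)) : ℤ) =
          (N : ℤ) + if y = y0 then ((K : ℤ) - N) else 0 := by
        intro y
        split_ifs
        · ring
        · ring
      simp_rw [h7]
      rw [Finset.sum_add_distrib, Finset.sum_ite_eq' Finset.univ y0, if_pos (Finset.mem_univ _)]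
      simp
    rw [h6, hK.1]
    push_cast
    ring

end Pool.Agent.FSig.HY
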