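import Pool.Agent.Work.MP_27623f_ag.HY.LocDefs

/-!
MP_27623f_ag, explicit family: the hypersurface, more definitions.
-/

set_option autoImplicit false

namespace Pool.Agent.FSig.HY

open MvPolynomial

universe u

variable (k : Type u) [Field k] {a b c : ℕ}

/-- The homogeneous elements of `S` of degree `g`. -/
noncomputable def gr (F : MvPolynomial (Option (Var a b c)) k) (g : ℤ) : Submodule k (Hyp k F) :=
  (weightedHomogeneousSubmodule k wo g).map (Ideal.Quotient.mkₐ k (Ideal.span {F})).toLinearMap

/-- The ideal of `S` generated by all variables but `x_0`. -/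
noncomputable def par (F : MvPolynomial (Option (Var a b c)) k) : Ideal (Hyp k F) :=
  Ideal.span (Set.range fun i : Var a b c => xi k F (some i))

/-- `F` is homogeneous of weight `f` and monic as a polynomial in `x_0`. -/
structure Good (F : MvPolynomial (Option (Var a b c)) k) (f : ℕ) : Prop where
  hom : F.IsWeightedHomogeneous wo (f : ℤ)
  monic : (optionEquivLeft k (Var a b c) F).Monic

end Pool.Agent.FSig.HY
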