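import Pool.Agent.Work.MP_27623f_ag.HY.HDefs

/-!
InvZ.  The ring of invariants `k[x_i y_j, t_l]` is the degree zero part of `S`, and
it is a finitely generated `k`-algebra.

PROOF.  `⊆`: `Algebra.adjoin_induction`; the generators are classes of weight zero monomials
(`isWeightedHomogeneous_X`, `.mul`), constants have weight zero, sums and products of weight zero
polynomials have weight zero.
`⊇`: a weight zero polynomial is a sum of weight zero monomials, so it is enough to show that the
class of `monomial m 1` is in `inv` whenever `∑_i m_i wo(i) = 0` (`Finsupp.weight wo m = 0`).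
Induction on the degree `∑ m_i`: if `m = 0` it is `1`.  If `m_i > 0` for some `i` with `wo i = 0`
factor out `X i`.  Otherwise some `m_i > 0` with `wo i = 1` or `wo i = -1`; since
`∑ m_i wo(i) = 0` there are both `i` with `wo i = 1`, `m_i > 0` and `j` with `wo j = -1`,
`m_j > 0`; factor out `X i * X j`.
Finite generation: `gens` is a finite set (`Set.Finite` : image of finite sets), so
`Algebra.adjoin` is of finite type (`Subalgebra.fg_adjoin_of_finite`,
`Subalgebra.fg_iff_finiteType`).
-/

set_option autoImplicit false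

namespace Pool.Agent.FSig.HY

open MvPolynomial

universe u

private theorem wo_cases {a b c : ℕ} (i : Option (Var a b c)) : wo i = 0 ∨ wo i = 1 ∨ wo i = -1 := by
  rcases i with _ | (i | i | i)
  · exact Or.inr (Or.inl rfl)
  · exact Or.inr (Or.inl rfl)
  · exact Or.inr (Or.inr rfl)
  · exact Or.inl rfl

private theorem weight_eq {a b c : ℕ} (m : Option (Var a b c) →₀ ℕ) :
    Finsupp.weight wo m = ∑ i ∈ m.support, (m i : ℤ) * wo i := by
  rw [Finsupp.weight_apply, Finsupp.sum]
  refine Finset.sum_congr rfl fun i _ => ?_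
  simp

private theorem exists_neg {a b c : ℕ} (m : Option (Var a b c) →₀ ℕ)
    (hm : Finsupp.weight wo m = 0) (e : ℤ) (he : e = 1 ∨ e = -1) (i : Option (Var a b c))
    (hi : m i ≠ 0) (hw : wo i = e) : ∃ j, m j ≠ 0 ∧ wo j = -e := by
  by_contra hcon
  push Not at hcon
  rw [weight_eq] at hm
  have h1 : 0 < ∑ i ∈ m.support, e * ((m i : ℤ) * wo i) := by
    refine Finset.sum_pos' ?_ ⟨i, Finsupp.mem_support_iff.mpr hi, ?_⟩
    · intro j hj
      have hj' := hcon j (Finsupp.mem_support_iff.mp hj)
      have h0 : (0 : ℤ) ≤ (m j : ℤ) := Int.natCast_nonneg _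
      have : 0 ≤ e * wo j := by
        rcases he with rfl | rfl <;> rcases wo_cases j with h | h | h <;> simp_all
      nlinarith [mul_nonneg h0 this]
    · have h0 : (0 : ℤ) < (m i : ℤ) := by exact_mod_cast Nat.pos_of_ne_zero hi
      rw [hw]
      rcases he with rfl | rfl <;> simpa using h0
  rw [← Finset.mul_sum, hm] at h1
  simp at h1

private theorem mono_mem (k : Type u) [Field k] {a b c : ℕ}
    (F : MvPolynomial (Option (Var a b c)) k) : ∀ (n : ℕ) (m : Option (Var a b c) →₀ ℕ),
    m.degree = n → Finsupp.weight wo m = 0 →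
      (Ideal.Quotient.mk (Ideal.span {F}) (monomial m (1 : k)) : Hyp k F) ∈ inv k F := by
  intro n
  induction n using Nat.strong_induction_on with
  | _ n ih =>
    intro m hn hm
    by_cases h0 : m = 0
    · subst h0
      have : (monomial (0 : Option (Var a b c) →₀ ℕ) (1 : k)) = 1 := rfl
      rw [this, map_one]
      exact one_mem _
    obtain ⟨i, hi⟩ : ∃ i, m i ≠ 0 := by
      by_contra hcon
      push Not at hcon
      exact h0 (Finsupp.ext hcon)
    have hsub : ∀ i, m i ≠ 0 → ∃ m' : Option (Var a b c) →₀ ℕ, m = Finsupp.single i 1 + m' := by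
      intro i hi
      refine ⟨m - Finsupp.single i 1, ?_⟩
      rw [add_comm]
      refine (tsub_add_cancel_of_le ?_).symm
      rw [Finsupp.single_le_iff]
      omega
    have hX : ∀ (i : Option (Var a b c)) (m' : Option (Var a b c) →₀ ℕ),
        (Ideal.Quotient.mk (Ideal.span {F}) (monomial (Finsupp.single i 1 + m') (1 : k)) :
          Hyp k F) = xi k F i * Ideal.Quotient.mk (Ideal.span {F}) (monomial m' (1 : k)) := by
      intro i m'
      rw [xi, ← map_mul, X, monomial_mul, one_mul]
    have hwt : ∀ (i : Option (Var a b c)) (m' : Option (Var a b c) →₀ ℕ),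
        Finsupp.weight wo (Finsupp.single i 1 + m') = wo i + Finsupp.weight wo m' := by
      intro i m'
      rw [map_add, Finsupp.weight_single, one_smul]
    have hdeg : ∀ (i : Option (Var a b c)) (m' : Option (Var a b c) →₀ ℕ),
        (Finsupp.single i 1 + m').degree = 1 + m'.degree := by
      intro i m'
      rw [map_add, Finsupp.degree_single]
    have key : ∀ i j : Option (Var a b c), m i ≠ 0 → m j ≠ 0 → wo i = 1 → wo j = -1 →
        (Ideal.Quotient.mk (Ideal.span {F}) (monomial m (1 : k)) : Hyp k F) ∈ inv k F := by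
      intro i j hi hj hwi hwj
      obtain ⟨m', rfl⟩ := hsub i hi
      have hij : i ≠ j := by
        rintro rfl
        rw [hwi] at hwj
        norm_num at hwj
      have hj' : m' j ≠ 0 := by
        simpa [Finsupp.single_apply, hij] using hj
      obtain ⟨m'', hm''⟩ : ∃ m'' : Option (Var a b c) →₀ ℕ, m' = Finsupp.single j 1 + m'' := by
        refine ⟨m' - Finsupp.single j 1, ?_⟩
        rw [add_comm]
        refine (tsub_add_cancel_of_le ?_).symm
        rw [Finsupp.single_le_iff]
        omega
      subst hm''
      rw [hX, hX, ← mul_assoc]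
      refine mul_mem (Algebra.subset_adjoin (Or.inl ⟨i, j, hwi, hwj, rfl⟩)) ?_
      rw [hdeg, hdeg] at hn
      rw [hwt, hwt, hwi, hwj] at hm
      exact ih m''.degree (by omega) m'' rfl (by linarith)
    rcases wo_cases i with h | h | h
    · obtain ⟨m', rfl⟩ := hsub i hi
      rw [hX]
      refine mul_mem (Algebra.subset_adjoin (Or.inr ⟨i, h, rfl⟩)) ?_
      rw [hdeg] at hn
      rw [hwt, h] at hm
      exact ih m'.degree (by omega) m' rfl (by linarith)
    · obtain ⟨j, hj, hwj⟩ := exists_neg m hm 1 (Or.inl rfl) i hi h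
      exact key i j hi hj h hwj
    · obtain ⟨j, hj, hwj⟩ := exists_neg m hm (-1) (Or.inr rfl) i hi h
      exact key j i hj hi (by simpa using hwj) h

theorem mem_inv_iff (k : Type u) [Field k] {a b c : ℕ}
    (F : MvPolynomial (Option (Var a b c)) k) (s : Hyp k F) :
    s ∈ inv k F ↔ s ∈ gr k F 0 := by
  constructor
  · intro hs
    refine Algebra.adjoin_induction (p := fun s _ => s ∈ gr k F 0) ?_ ?_ ?_ ?_ hs
    · rintro _ (⟨i, j, hi, hj, rfl⟩ | ⟨i, hi, rfl⟩)
      · refine ⟨X i * X j, ?_, ?_⟩
        · have := (isWeightedHomogeneous_X k wo i).mul (isWeightedHomogeneous_X k wo j)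
          rw [hi, hj] at this
          simpa using this
        · simp [xi]
      · refine ⟨X i, ?_, ?_⟩
        · have := isWeightedHomogeneous_X k wo i
          rw [hi] at this
          exact this
        · simp [xi]
    · intro r
      exact ⟨C r, isWeightedHomogeneous_C wo r, rfl⟩
    · intro x y _ _ hx hy
      exact add_mem hx hy
    · rintro _ _ _ _ ⟨p, hp, rfl⟩ ⟨q, hq, rfl⟩
      refine ⟨p * q, ?_, ?_⟩
      · have := IsWeightedHomogeneous.mul (show IsWeightedHomogeneous wo p 0 from hp)
          (show IsWeightedHomogeneous wo q 0 from hq)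
        rw [add_zero] at this
        exact this
      · simp
  · rintro ⟨p, hp, rfl⟩
    have hp' : IsWeightedHomogeneous wo p 0 := hp
    rw [p.as_sum, map_sum]
    refine sum_mem fun m hm => ?_
    have h1 : (monomial m (coeff m p) : MvPolynomial (Option (Var a b c)) k) =
        (coeff m p) • monomial m (1 : k) := by
      rw [smul_monomial, smul_eq_mul, mul_one]
    rw [h1, map_smul]
    refine (inv k F).smul_mem ?_ _
    exact mono_mem k F m.degree m rfl (hp' (mem_support_iff.mp hm))

theorem inv_finiteType (k : Type u) [Field k] {a b c : ℕ}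
    (F : MvPolynomial (Option (Var a b c)) k) : Algebra.FiniteType k (inv k F) := by
  rw [← Subalgebra.fg_iff_finiteType]
  refine Subalgebra.fg_def.mpr ⟨gens k F, ?_, rfl⟩
  rw [gens]
  refine Set.Finite.union ?_ ?_
  · refine (Set.finite_range
      (fun q : Option (Var a b c) × Option (Var a b c) => xi k F q.1 * xi k F q.2)).subset ?_
    rintro _ ⟨i, j, _, _, rfl⟩
    exact ⟨(i, j), rfl⟩
  · refine (Set.finite_range (fun q : Option (Var a b c) => xi k F q)).subset ?_
    rintro _ ⟨i, _, rfl⟩
    exact ⟨i, rfl⟩

end Pool.Agent.FSig.HY
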