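import Pool.Agent.Work.MP_27623f_ag.HY.Defs

/-!
MP_27623f_ag, explicit family: gradings over the degree zero part and of localizations, definitions.
-/

set_option autoImplicit false

namespace Pool.Agent.FSig.HY

universe u v w

/-- The graded pieces of a `k`-algebra, as modules over a subalgebra `R₀` of the degree zero
part. -/
def overZero {k : Type*} {B : Type*} {G : Type*} [CommRing k] [CommRing B] [Algebra k B]
    [AddCommGroup G] [DecidableEq G] (ℬ : G → Submodule k B) [GradedAlgebra ℬ]
    (R₀ : Subalgebra k B) (h : ∀ s ∈ R₀, s ∈ ℬ 0) (g : G) : Submodule R₀ B where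
  carrier := ℬ g
  add_mem' := fun ha hb => (ℬ g).add_mem ha hb
  zero_mem' := (ℬ g).zero_mem
  smul_mem' := fun r s hs => by
    have h1 : (r : B) * s ∈ ℬ (0 + g) := SetLike.GradedMul.mul_mem (h r.1 r.2) hs
    rwa [zero_add] at h1

/-- The ring of fractions of `B` with denominators in the image of `M`. -/
abbrev TLoc {R₀ : Type*} [CommRing R₀] (M : Submonoid R₀) (B : Type*) [CommRing B]
    [Algebra R₀ B] : Type _ :=
  Localization (Algebra.algebraMapSubmonoid B M)

/-- The graded pieces of the localization. -/
noncomputable def locGr {R₀ : Type*} [CommRing R₀] (M : Submonoid R₀) {B : Type*} [CommRing B]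
    [Algebra R₀ B] {G : Type*} (𝒞 : G → Submodule R₀ B) (g : G) :
    Submodule (Localization M) (TLoc M B) :=
  Submodule.span (Localization M) (algebraMap B (TLoc M B) '' (𝒞 g : Set B))

end Pool.Agent.FSig.HY
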