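import Pool.Agent.Work.MP_27623f_ag.HY.LocDefs

/-!
LocG.  The localization of a graded algebra at a multiplicative set of the base ring
(which is mapped to the degree zero part) is graded.

The localization is the base change of `B` to the localization of the base ring.
-/

set_option autoImplicit false

namespace Pool.Agent.FSig.HY

open TensorProduct

private theorem map_baseChange {R₀ : Type*} [CommRing R₀] (M : Submonoid R₀) {B : Type*}
    [CommRing B] [Algebra R₀ B] {G : Type*} (𝒞 : G → Submodule R₀ B)
    (e : Localization M ⊗[R₀] B ≃ₗ[Localization M] TLoc M B)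
    (he : ∀ b : B, e (1 ⊗ₜ[R₀] b) = algebraMap B (TLoc M B) b) (g : G) :
    locGr M 𝒞 g = ((𝒞 g).baseChange (Localization M)).map (e : _ →ₗ[Localization M] _) := by
  rw [Submodule.baseChange_eq_span, Submodule.map_span]
  unfold locGr
  congr 1
  ext t
  constructor
  · rintro ⟨b, hb, rfl⟩
    exact ⟨1 ⊗ₜ[R₀] b, ⟨b, hb, rfl⟩, he b⟩
  · rintro ⟨s, ⟨b, hb, rfl⟩, rfl⟩
    exact ⟨b, hb, (he b).symm⟩

theorem locGr_graded {R₀ : Type*} [CommRing R₀] (M : Submonoid R₀) {B : Type*} [CommRing B]
    [Algebra R₀ B] {G : Type*} [AddCommGroup G] [DecidableEq G] (𝒞 : G → Submodule R₀ B)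
    [GradedAlgebra 𝒞] : Nonempty (GradedAlgebra (locGr M 𝒞)) := by
  have hp : Algebra.IsPushout R₀ B (Localization M) (TLoc M B) :=
    Algebra.isPushout_of_isLocalization (R := R₀) (A := Localization M) M B (TLoc M B)
  have hp' : Algebra.IsPushout R₀ (Localization M) B (TLoc M B) := hp.symm
  let e := Algebra.IsPushout.equiv R₀ (Localization M) B (TLoc M B)
  have he : ∀ b : B, e (1 ⊗ₜ[R₀] b) = algebraMap B (TLoc M B) b := fun b => by
    simp only [e, Algebra.IsPushout.equiv_tmul, map_one, one_mul]
  have hmap := map_baseChange M 𝒞 e.toLinearEquiv he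
  have hint : DirectSum.IsInternal (fun g => (𝒞 g).baseChange (Localization M)) :=
    DirectSum.Decomposition.isInternal _
  have hint' : DirectSum.IsInternal (locGr M 𝒞) := by
    rw [DirectSum.isInternal_submodule_iff_iSupIndep_and_iSup_eq_top] at hint ⊢
    have hcomp : locGr M 𝒞 = (Submodule.orderIsoMapComap e.toLinearEquiv) ∘
        (fun g => (𝒞 g).baseChange (Localization M)) := funext hmap
    rw [hcomp]
    refine ⟨(iSupIndep_map_orderIso_iff _).2 hint.1, ?_⟩
    have := congrArg (Submodule.orderIsoMapComap e.toLinearEquiv) hint.2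
    rw [OrderIso.map_iSup, OrderIso.map_top] at this
    exact this
  have hmon : SetLike.GradedMonoid (locGr M 𝒞) :=
    { one_mem := by
        rw [hmap]
        refine ⟨1, SetLike.GradedOne.one_mem (A := fun g => (𝒞 g).baseChange (Localization M)), ?_⟩
        exact map_one e
      mul_mem := by
        intro i j a b ha hb
        rw [hmap] at ha hb ⊢
        obtain ⟨a', ha', rfl⟩ := ha
        obtain ⟨b', hb', rfl⟩ := hb
        exact ⟨a' * b', SetLike.GradedMul.mul_mem
          (A := fun g => (𝒞 g).baseChange (Localization M)) ha' hb', map_mul e a' b'⟩ }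
  exact ⟨{ hmon, hint'.chooseDecomposition with }⟩

end Pool.Agent.FSig.HY
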