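import Pool.Agent.Work.MP_27623f_ag.HY.Coord

/-!
STUB MaxNe (size S-M).  The localization of the ring of invariants at the origin is not a field.

PROOF.  The element `z = x_1 y_1` (`a ≥ 1`, `b ≥ 1`) of `inv` lies in `mo`, so its image in the
localization is in the maximal ideal.  It is not zero: otherwise `w z = 0` in `inv` for some
`w ∉ mo` (`IsLocalization.map_eq_zero_iff`), so in `S`:
`mk(rename some (X_1 Y_1)) * w = 0`, and by the coordinates of `exists_coord`
`X_1 Y_1 * κ w j = 0` for all `j`, so `κ w = 0` (`P` is a domain), `w = 0 ∈ mo`, a contradiction.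
-/

set_option autoImplicit false

namespace Pool.Agent.FSig.HY

open MvPolynomial

universe u

theorem max_ne_bot (k : Type u) [Field k] {a b c : ℕ} (ha : 1 ≤ a) (hb : 1 ≤ b)
    (F : MvPolynomial (Option (Var a b c)) k) (f : ℕ) (h : Good k F f) [(mo k F).IsPrime] :
    IsLocalRing.maximalIdeal (Localization.AtPrime (mo k F)) ≠ ⊥ := by
  intro hbot
  obtain ⟨κ, hκ, hmul, -⟩ := exists_coord k F f h
  let i : Var a b c := Sum.inl ⟨0, ha⟩
  let j : Var a b c := Sum.inr (Sum.inl ⟨0, hb⟩)
  have hg : xi k F (some i) * xi k F (some j) ∈ gens k F :=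
    Or.inl ⟨some i, some j, rfl, rfl, rfl⟩
  let z : inv k F := ⟨xi k F (some i) * xi k F (some j), Algebra.subset_adjoin hg⟩
  have hz : z ∈ mo k F := Ideal.subset_span hg
  have h1 : algebraMap (inv k F) (Localization.AtPrime (mo k F)) z ∈
      IsLocalRing.maximalIdeal (Localization.AtPrime (mo k F)) :=
    (IsLocalization.AtPrime.to_map_mem_maximal_iff (Localization.AtPrime (mo k F)) (mo k F) z).2 hz
  rw [hbot, Ideal.mem_bot, IsLocalization.map_eq_zero_iff (mo k F).primeCompl] at h1
  obtain ⟨w, hw⟩ := h1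
  have hw' : Ideal.Quotient.mk (Ideal.span {F}) (rename some (X i * X j)) *
      ((w : inv k F) : Hyp k F) = 0 := by
    have := congrArg (Subtype.val : inv k F → Hyp k F) hw
    rw [map_mul, rename_X, rename_X, map_mul, mul_comm]
    exact this
  have hk : κ ((w : inv k F) : Hyp k F) = 0 := by
    have h2 := hmul (X i * X j) ((w : inv k F) : Hyp k F)
    rw [hw', map_zero] at h2
    funext l
    have h3 : (X i * X j : MvPolynomial (Var a b c) k) * κ ((w : inv k F) : Hyp k F) l = 0 :=
      (congrFun h2 l).symm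
    exact (mul_eq_zero.1 h3).resolve_left (mul_ne_zero (X_ne_zero i) (X_ne_zero j))
  have h0 : ((w : inv k F) : Hyp k F) = 0 := hκ (by rw [hk, map_zero])
  have h0' : (w : inv k F) = 0 := Subtype.ext h0
  exact w.2 (by rw [h0']; exact (mo k F).zero_mem)

end Pool.Agent.FSig.HY
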