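import Pool.Agent.Work.MP_27623f_ag.HY.HDefs

/-!
STUB MoMax (size S-M).  The ideal `mo` of the origin is maximal, and its extension to `S` is in the
ideal of the parameters.

PROOF.  Evaluation at the origin `ε : S → k` is well defined: `F` has no constant term because it
is homogeneous of weight `f ≥ 1` (`Ideal.Quotient.lift`, `MvPolynomial.constantCoeff`).
* `exists_const`: for `r ∈ inv` there is `z : k` with `r - z ∈ mo`: `Algebra.adjoin_induction` on
  the subalgebra (for the generators `z = 0`; sums; products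
  `r r' - z z' = (r - z) r' + z (r' - z')`).  `z ≠ 0` if `r ∉ mo`: otherwise `r ∈ mo`.
* `mo` is proper: `ε` vanishes on the generators of `mo`, hence on `mo`, and `ε 1 = 1`.
* maximal: if `mo < J` take `r ∈ J`, `r ∉ mo`; `r - z ∈ mo`, `z ≠ 0`, so `z ∈ J`, `J = ⊤`.
* `map_mo_le`: the generators `x_i y_j` (`j = some _` since `wo none = 1 ≠ -1`) and `t_l`
  (`some _` since `wo none ≠ 0`) are multiples of some `xi (some _)`.
-/

set_option autoImplicit false

namespace Pool.Agent.FSig.HY

open MvPolynomial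

universe u

private theorem exists_const_aux (k : Type u) [Field k] {a b c : ℕ}
    (F : MvPolynomial (Option (Var a b c)) k) (s : Hyp k F) (hs : s ∈ Algebra.adjoin k (gens k F)) :
    ∃ z : k, (⟨s, hs⟩ : inv k F) - algebraMap k (inv k F) z ∈ mo k F := by
  induction hs using Algebra.adjoin_induction with
  | mem x hx =>
    refine ⟨0, ?_⟩
    rw [map_zero, sub_zero]
    exact Ideal.subset_span hx
  | algebraMap r =>
    refine ⟨r, ?_⟩
    have : (⟨algebraMap k (Hyp k F) r, Subalgebra.algebraMap_mem _ r⟩ : inv k F) -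
        algebraMap k (inv k F) r = 0 := Subtype.ext (sub_self _)
    rw [this]
    exact (mo k F).zero_mem
  | add x y hx hy ihx ihy =>
    obtain ⟨z, hz⟩ := ihx
    obtain ⟨z', hz'⟩ := ihy
    refine ⟨z + z', ?_⟩
    have : (⟨x + y, add_mem hx hy⟩ : inv k F) - algebraMap k (inv k F) (z + z') =
        ((⟨x, hx⟩ : inv k F) - algebraMap k (inv k F) z) +
        ((⟨y, hy⟩ : inv k F) - algebraMap k (inv k F) z') := by
      rw [map_add]
      have : (⟨x + y, add_mem hx hy⟩ : inv k F) = (⟨x, hx⟩ : inv k F) + ⟨y, hy⟩ := rfl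
      rw [this]
      ring
    rw [this]
    exact (mo k F).add_mem hz hz'
  | mul x y hx hy ihx ihy =>
    obtain ⟨z, hz⟩ := ihx
    obtain ⟨z', hz'⟩ := ihy
    refine ⟨z * z', ?_⟩
    have : (⟨x * y, mul_mem hx hy⟩ : inv k F) - algebraMap k (inv k F) (z * z') =
        (⟨y, hy⟩ : inv k F) * ((⟨x, hx⟩ : inv k F) - algebraMap k (inv k F) z) +
        algebraMap k (inv k F) z * ((⟨y, hy⟩ : inv k F) - algebraMap k (inv k F) z') := by
      rw [map_mul]
      have : (⟨x * y, mul_mem hx hy⟩ : inv k F) = (⟨x, hx⟩ : inv k F) * ⟨y, hy⟩ := rfl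
      rw [this]
      ring
    rw [this]
    exact (mo k F).add_mem (Ideal.mul_mem_left _ _ hz) (Ideal.mul_mem_left _ _ hz')

theorem exists_const (k : Type u) [Field k] {a b c : ℕ}
    (F : MvPolynomial (Option (Var a b c)) k) (r : inv k F) (hr : r ∉ mo k F) :
    ∃ z : k, z ≠ 0 ∧ r - algebraMap k (inv k F) z ∈ mo k F := by
  obtain ⟨z, hz⟩ := exists_const_aux k F r.1 r.2
  refine ⟨z, ?_, hz⟩
  rintro rfl
  rw [map_zero, sub_zero] at hz
  exact hr hz

private theorem xi_eval (k : Type u) [Field k] {a b c : ℕ}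
    (F : MvPolynomial (Option (Var a b c)) k) (f : ℕ) (h : Good k F f) (hf : 1 ≤ f) :
    ∃ ε : Hyp k F →+* k, ∀ i, ε (xi k F i) = 0 := by
  have h0 : constantCoeff F = 0 := by
    by_contra hne
    have h1 := h.hom (d := 0) (by rwa [constantCoeff_eq] at hne)
    rw [map_zero] at h1
    have : (f : ℤ) ≠ 0 := by exact_mod_cast (by omega : f ≠ 0)
    exact this h1.symm
  refine ⟨Ideal.Quotient.lift (Ideal.span {F}) constantCoeff ?_, fun i => ?_⟩
  · intro x hx
    obtain ⟨y, rfl⟩ := Ideal.mem_span_singleton'.1 hx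
    rw [map_mul, h0, mul_zero]
  · unfold xi
    rw [Ideal.Quotient.lift_mk, constantCoeff_X]

theorem mo_isMaximal (k : Type u) [Field k] {a b c : ℕ}
    (F : MvPolynomial (Option (Var a b c)) k) (f : ℕ) (h : Good k F f) (hf : 1 ≤ f) :
    (mo k F).IsMaximal := by
  obtain ⟨ε, hε⟩ := xi_eval k F f h hf
  have hker : ∀ s ∈ mo k F, ε (s : Hyp k F) = 0 := by
    intro s hs
    have hle : mo k F ≤ RingHom.ker (ε.comp (inv k F).val.toRingHom) := by
      unfold mo
      rw [Ideal.span_le]
      rintro s (⟨i, j, -, -, hs⟩ | ⟨i, -, hs⟩)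
      · change ε (s : Hyp k F) = 0
        rw [hs, map_mul, hε, zero_mul]
      · change ε (s : Hyp k F) = 0
        rw [hs, hε]
    exact hle hs
  rw [Ideal.isMaximal_iff]
  constructor
  · intro h1
    have := hker 1 h1
    rw [OneMemClass.coe_one, map_one] at this
    exact one_ne_zero this
  · intro J r hJ hr hrJ
    obtain ⟨z, hz, hrz⟩ := exists_const k F r hr
    have h1 : algebraMap k (inv k F) z ∈ J := by
      have : algebraMap k (inv k F) z = r - (r - algebraMap k (inv k F) z) := by ring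
      rw [this]
      exact J.sub_mem hrJ (hJ hrz)
    have h2 := J.mul_mem_left (algebraMap k (inv k F) z⁻¹) h1
    rwa [← map_mul, inv_mul_cancel₀ hz, map_one] at h2

theorem map_mo_le (k : Type u) [Field k] {a b c : ℕ}
    (F : MvPolynomial (Option (Var a b c)) k) :
    (mo k F).map (algebraMap (inv k F) (Hyp k F)) ≤ par k F := by
  unfold mo
  rw [Ideal.map_span, Ideal.span_le]
  rintro _ ⟨s, (⟨i, j, -, hj, hs⟩ | ⟨i, hi, hs⟩), rfl⟩
  · change (s : Hyp k F) ∈ par k F
    rw [hs]
    cases j with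
    | none => simp [wo] at hj
    | some j => exact Ideal.mul_mem_left _ _ (Ideal.subset_span ⟨j, rfl⟩)
  · change (s : Hyp k F) ∈ par k F
    rw [hs]
    cases i with
    | none => simp [wo] at hi
    | some i => exact Ideal.subset_span ⟨i, rfl⟩

end Pool.Agent.FSig.HY
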