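import Pool.Agent.Work.MP_27623f_ag.HY.Coord

/-!
The variables other than `x_0` form a regular sequence of `S` in every
order.

PROOF.  Take `κ` from `exists_coord`.  Every `s` equals
`∑_j mk(rename some (κ s j)) * x_0^j` (both sides have the same coordinates, `κ` injective).
Claim: `s ∈ span {xi (some t) | t ∈ T}` iff `κ s j ∈ span (X '' T)` for all `j`.  `⇒`: by
`Submodule.span_induction` (`κ (r * xi (some t)) = X t * κ r` since
`xi (some t) = mk (rename some (X t))`); `⇐`: by the formula for `s`, `Ideal.map` along
`P → S`.
In the polynomial ring: `X i * q ∈ span (X '' T)`, `i ∉ T`, gives `q ∈ span (X '' T)`: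
`MvPolynomial.mem_ideal_span_X_image` (every monomial of the polynomial is divisible by a
variable of `T`), and the monomials of `X i * q` are those of `q` times `X i`
(`MvPolynomial.support_X_mul`).
-/

set_option autoImplicit false

namespace Pool.Agent.FSig.HY

open MvPolynomial

universe u

private theorem poly_reg (k : Type u) [Field k] {σ : Type*} (i : σ) (T : Set σ) (hi : i ∉ T)
    (q : MvPolynomial σ k) (hq : X i * q ∈ Ideal.span (X '' T)) : q ∈ Ideal.span (X '' T) := by
  rw [mem_ideal_span_X_image] at hq ⊢
  intro m hm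
  have h1 : Finsupp.single i 1 + m ∈ (X i * q).support := by
    rw [mem_support_iff, coeff_X_mul]
    exact mem_support_iff.mp hm
  obtain ⟨t, ht, h2⟩ := hq _ h1
  refine ⟨t, ht, ?_⟩
  have hti : i ≠ t := fun h => hi (h ▸ ht)
  rw [Finsupp.add_apply, Finsupp.single_eq_of_ne (Ne.symm hti), zero_add] at h2
  exact h2

private theorem coord_mem (k : Type u) [Field k] {a b c : ℕ}
    (F : MvPolynomial (Option (Var a b c)) k) (f : ℕ)
    (κ : Hyp k F →+ (Fin f → MvPolynomial (Var a b c) k))
    (hκ : ∀ (q : MvPolynomial (Var a b c) k) (s : Hyp k F),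
      κ (Ideal.Quotient.mk _ (rename some q) * s) = fun j => q * κ s j)
    (T : Set (Var a b c)) (s : Hyp k F)
    (hs : s ∈ Ideal.span ((fun j : Var a b c => xi k F (some j)) '' T)) :
    ∀ j, κ s j ∈ Ideal.span ((X : Var a b c → MvPolynomial (Var a b c) k) '' T) := by
  have key : ∀ (r : Hyp k F) (j : Fin f), κ (r * s) j ∈
      Ideal.span ((X : Var a b c → MvPolynomial (Var a b c) k) '' T) := by
    induction hs using Submodule.span_induction with
    | mem x hx =>
      intro r j
      obtain ⟨t, ht, rfl⟩ := hx
      have h1 : r * (fun j : Var a b c => xi k F (some j)) t =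
          Ideal.Quotient.mk _ (rename some (X t : MvPolynomial (Var a b c) k)) * r := by
        rw [mul_comm, rename_X]
        rfl
      rw [h1, hκ]
      exact Ideal.mul_mem_right _ _ (Ideal.subset_span ⟨t, ht, rfl⟩)
    | zero =>
      intro r j
      rw [mul_zero, map_zero]
      exact Ideal.zero_mem _
    | add x y _ _ hx hy =>
      intro r j
      rw [mul_add, map_add]
      exact Ideal.add_mem _ (hx r j) (hy r j)
    | smul u x _ hx =>
      intro r j
      rw [smul_eq_mul, ← mul_assoc]
      exact hx (r * u) j
  intro j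
  have h1 := key 1 j
  rwa [one_mul] at h1

theorem reg_hyp (k : Type u) [Field k] {a b c : ℕ}
    (F : MvPolynomial (Option (Var a b c)) k) (f : ℕ) (h : Good k F f) (i : Var a b c)
    (T : Finset (Var a b c)) (hi : i ∉ T) (s : Hyp k F)
    (hs : xi k F (some i) * s ∈ Ideal.span ((fun j : Var a b c => xi k F (some j)) '' T)) :
    s ∈ Ideal.span ((fun j : Var a b c => xi k F (some j)) '' T) := by
  obtain ⟨κ, hinj, hmul, hbas⟩ := exists_coord k F f h
  have h1 := coord_mem k F f κ hmul (T : Set (Var a b c)) _ hs
  have h2 : ∀ j, κ s j ∈ Ideal.span ((X : Var a b c → MvPolynomial (Var a b c) k) '' T) := by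
    intro j
    apply poly_reg k i (T : Set (Var a b c)) (by simpa using hi)
    have h3 : xi k F (some i) * s =
        Ideal.Quotient.mk _ (rename some (X i : MvPolynomial (Var a b c) k)) * s := by
      rw [rename_X]
      rfl
    have h4 := h1 j
    rw [h3, hmul] at h4
    exact h4
  have h5 : s = ∑ j : Fin f,
      Ideal.Quotient.mk (Ideal.span {F}) (rename some (κ s j)) * xi k F none ^ (j : ℕ) := by
    apply hinj
    rw [map_sum]
    funext i
    rw [Finset.sum_apply, Finset.sum_eq_single i]
    · rw [hmul, hbas]
      change κ s i = κ s i * (Pi.single i 1 : Fin f → MvPolynomial (Var a b c) k) i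
      rw [Pi.single_eq_same, mul_one]
    · intro j _ hj
      rw [hmul, hbas]
      change κ s j * (Pi.single j 1 : Fin f → MvPolynomial (Var a b c) k) i = 0
      rw [Pi.single_eq_of_ne (Ne.symm hj), mul_zero]
    · intro hi'
      exact absurd (Finset.mem_univ i) hi'
  rw [h5]
  refine Ideal.sum_mem _ fun j _ => Ideal.mul_mem_right _ _ ?_
  have h6 : (Ideal.span ((X : Var a b c → MvPolynomial (Var a b c) k) '' T)).map
      ((Ideal.Quotient.mk (Ideal.span {F})).comp
        (rename (some : Var a b c → Option (Var a b c))).toRingHom) =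
      Ideal.span ((fun j : Var a b c => xi k F (some j)) '' T) := by
    rw [Ideal.map_span, Set.image_image]
    congr 1
    refine Set.image_congr fun t _ => ?_
    change Ideal.Quotient.mk (Ideal.span {F}) (rename some (X t)) = _
    rw [rename_X]
    rfl
  rw [← h6]
  exact Ideal.mem_map_of_mem _ (h2 j)

end Pool.Agent.FSig.HY
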