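import Pool.Agent.Work.MP_27623f_ag.HY.Coord

/-!
Socle.  Modulo the parameters `S` is `k[x_0] / (x_0^f)`.

PROOF.  Take `κ` from `exists_coord`; every `s` is `∑_j mk(rename some (κ s j)) * x_0^j`.
* `x_pow_mem`: `x_0^f ∈ par`.  With `e = optionEquivLeft`, `e F = X^f + ∑_{i<f} C(p_i) X^i`
  (monic of degree `f`, see the header of Coord for the degree), and in `S`
  `0 = x_0^f + ∑_{i<f} mk(rename some p_i) x_0^i`.  The polynomial `p_i` is homogeneous of weight
  `f - i > 0`, in particular its constant term is zero (the coefficient of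
  `single none i` in `F`, whose weight is `i ≠ f`), so `mk (rename some p_i) ∈ par`.
* `par_coord`: `s ∈ par` iff all `κ s j` have constant term zero (a polynomial of `P` has constant
  term zero iff it is in the ideal of all variables; as in RegS with `T = univ`).
* `v_not`: if `z x_0^{f-1} ∈ par` with `z : k`, then `z = 0`: coordinate `f - 1` is the
  constant `z`.
* `socle_hyp`: `s ∉ par`: some `κ s j` has nonzero constant term `c_j`; take `j` minimal.  Put
  `t = c_j⁻¹ x_0^{f-1-j}`.  Modulo `par`, `s ≡ ∑_{i ≥ j} c_i x_0^i`, so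
  `t s ≡ x_0^{f-1} + ∑_{i > j} c_j⁻¹ c_i x_0^{f-1-j+i}` and the exponents in the sum are `≥ f`.
-/

set_option autoImplicit false

namespace Pool.Agent.FSig.HY

open MvPolynomial

universe u

private theorem mono_par (k : Type u) [Field k] {a b c : ℕ}
    (F : MvPolynomial (Option (Var a b c)) k) (m : Option (Var a b c) →₀ ℕ) (i : Var a b c)
    (hi : m (some i) ≠ 0) (r : k) :
    (Ideal.Quotient.mk (Ideal.span {F}) (monomial m r) : Hyp k F) ∈ par k F := by
  have h1 : m = Finsupp.single (some i) 1 + (m - Finsupp.single (some i) 1) := by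
    rw [add_comm]
    refine (tsub_add_cancel_of_le ?_).symm
    rw [Finsupp.single_le_iff]
    omega
  have h2 : (monomial m r : MvPolynomial (Option (Var a b c)) k) =
      X (some i) * monomial (m - Finsupp.single (some i) 1) r := by
    conv_lhs => rw [h1]
    rw [X, monomial_mul, one_mul]
  rw [h2, map_mul]
  exact Ideal.mul_mem_right _ _ (Ideal.subset_span ⟨i, rfl⟩)

private theorem coeff_top (k : Type u) [Field k] {a b c : ℕ}
    (F : MvPolynomial (Option (Var a b c)) k) (f : ℕ) (h : Good k F f) :
    coeff (Finsupp.single none f) F = 1 := by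
  have h1 : coeff (Finsupp.single none (optionEquivLeft k (Var a b c) F).natDegree) F = 1 := by
    rw [← optionEquivLeft_coeff_some_coeff_none]
    have h2 : (Finsupp.single (none : Option (Var a b c))
        (optionEquivLeft k (Var a b c) F).natDegree) none =
        (optionEquivLeft k (Var a b c) F).natDegree := by simp
    have h3 : (Finsupp.single (none : Option (Var a b c))
        (optionEquivLeft k (Var a b c) F).natDegree).some = 0 := by
      ext i
      simp
    have h4 : (optionEquivLeft k (Var a b c) F).coeff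
        (optionEquivLeft k (Var a b c) F).natDegree = 1 := h.monic
    rw [h2, h3, h4]
    simp
  have h2 := h.hom (d := Finsupp.single none (optionEquivLeft k (Var a b c) F).natDegree)
    (by rw [h1]; exact one_ne_zero)
  rw [Finsupp.weight_single] at h2
  have h3 : (optionEquivLeft k (Var a b c) F).natDegree = f := by
    have : (wo (none : Option (Var a b c))) = 1 := rfl
    rw [this] at h2
    simpa using h2
  rw [h3] at h1
  exact h1

theorem x_pow_mem (k : Type u) [Field k] {a b c : ℕ}
    (F : MvPolynomial (Option (Var a b c)) k) (f : ℕ) (h : Good k F f) :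
    xi k F none ^ f ∈ par k F := by
  have h0 : (Ideal.Quotient.mk (Ideal.span {F}) F : Hyp k F) = 0 :=
    Ideal.Quotient.eq_zero_iff_mem.mpr (Ideal.subset_span rfl)
  have h1 := coeff_top k F f h
  have hmem : Finsupp.single none f ∈ F.support := by
    rw [mem_support_iff, h1]
    exact one_ne_zero
  have h2 : (Ideal.Quotient.mk (Ideal.span {F}) F : Hyp k F) = xi k F none ^ f +
      ∑ m ∈ F.support.erase (Finsupp.single none f),
        Ideal.Quotient.mk (Ideal.span {F}) (monomial m (coeff m F)) := by
    have h5 := congrArg (Ideal.Quotient.mk (Ideal.span {F})) F.as_sum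
    rw [h5, map_sum, ← Finset.add_sum_erase _ _ hmem, h1, xi, ← map_pow, X_pow_eq_monomial]
  rw [h0] at h2
  have h3 : xi k F none ^ f = - ∑ m ∈ F.support.erase (Finsupp.single none f),
        Ideal.Quotient.mk (Ideal.span {F}) (monomial m (coeff m F)) :=
    eq_neg_of_add_eq_zero_left h2.symm
  rw [h3]
  refine neg_mem (sum_mem fun m hm => ?_)
  rw [Finset.mem_erase, mem_support_iff] at hm
  obtain ⟨hm1, hm2⟩ := hm
  by_cases hcon : ∃ i, m (some i) ≠ 0
  · obtain ⟨i, hi⟩ := hcon
    exact mono_par k F m i hi _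
  · exfalso
    push Not at hcon
    have h4 : m = Finsupp.single none (m none) := by
      ext i
      rcases i with _ | i
      · simp
      · rw [hcon i]
        simp
    have h5 := h.hom hm2
    rw [h4, Finsupp.weight_single] at h5
    have h6 : m none = f := by
      have : (wo (none : Option (Var a b c))) = 1 := rfl
      rw [this] at h5
      simpa using h5
    rw [h6] at h4
    exact hm1 h4

private theorem const_par (k : Type u) [Field k] {a b c : ℕ}
    (F : MvPolynomial (Option (Var a b c)) k) (q : MvPolynomial (Var a b c) k)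
    (hq : constantCoeff q = 0) :
    (Ideal.Quotient.mk (Ideal.span {F}) (rename some q) : Hyp k F) ∈ par k F := by
  rw [q.as_sum, map_sum, map_sum]
  refine sum_mem fun m hm => ?_
  rw [rename_monomial]
  by_cases hcon : ∃ i, m i ≠ 0
  · obtain ⟨i, hi⟩ := hcon
    refine mono_par k F _ i ?_ _
    rwa [Finsupp.mapDomain_apply (Option.some_injective _)]
  · exfalso
    push Not at hcon
    have : m = 0 := Finsupp.ext hcon
    subst this
    rw [mem_support_iff] at hm
    exact hm hq

private theorem expand (k : Type u) [Field k] {a b c : ℕ}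
    (F : MvPolynomial (Option (Var a b c)) k) (f : ℕ)
    (κ : Hyp k F →+ (Fin f → MvPolynomial (Var a b c) k)) (hκ : Function.Injective κ)
    (h1 : ∀ (q : MvPolynomial (Var a b c) k) (s : Hyp k F),
        κ (Ideal.Quotient.mk _ (rename some q) * s) = fun j => q * κ s j)
    (h2 : ∀ j : Fin f, κ (xi k F none ^ (j : ℕ)) = Pi.single j 1) (s : Hyp k F) :
    s = ∑ j : Fin f, Ideal.Quotient.mk (Ideal.span {F}) (rename some (κ s j)) *
      xi k F none ^ (j : ℕ) := by
  refine hκ ?_
  rw [map_sum]
  funext l
  rw [Finset.sum_apply, Finset.sum_eq_single l]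
  · rw [h1, h2]
    simp
  · intro j _ hj
    rw [h1, h2]
    simp [hj.symm]
  · intro hl
    exact absurd (Finset.mem_univ l) hl

private theorem par_coord (k : Type u) [Field k] {a b c : ℕ}
    (F : MvPolynomial (Option (Var a b c)) k) (f : ℕ)
    (κ : Hyp k F →+ (Fin f → MvPolynomial (Var a b c) k)) (hκ : Function.Injective κ)
    (h1 : ∀ (q : MvPolynomial (Var a b c) k) (s : Hyp k F),
        κ (Ideal.Quotient.mk _ (rename some q) * s) = fun j => q * κ s j)
    (h2 : ∀ j : Fin f, κ (xi k F none ^ (j : ℕ)) = Pi.single j 1) (s : Hyp k F) :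
    s ∈ par k F ↔ ∀ j, constantCoeff (κ s j) = 0 := by
  constructor
  · intro hs j
    rw [par, Ideal.mem_span_range_iff_exists_fun] at hs
    obtain ⟨g, rfl⟩ := hs
    rw [map_sum, Finset.sum_apply, map_sum]
    refine Finset.sum_eq_zero fun i _ => ?_
    have h3 : xi k F (some i) = Ideal.Quotient.mk (Ideal.span {F}) (rename some (X i)) := by
      rw [rename_X, xi]
    rw [mul_comm, h3, h1]
    simp
  · intro hs
    rw [expand k F f κ hκ h1 h2 s]
    exact sum_mem fun j _ => Ideal.mul_mem_right _ _ (const_par k F _ (hs j))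

theorem v_not (k : Type u) [Field k] {a b c : ℕ}
    (F : MvPolynomial (Option (Var a b c)) k) (f : ℕ) (h : Good k F f) (hf : 1 ≤ f) (z : k)
    (hz : algebraMap k (Hyp k F) z * xi k F none ^ (f - 1) ∈ par k F) : z = 0 := by
  obtain ⟨κ, hκ, h1, h2⟩ := exists_coord k F f h
  rw [par_coord k F f κ hκ h1 h2] at hz
  have h3 := hz ⟨f - 1, by omega⟩
  have h4 : algebraMap k (Hyp k F) z =
      Ideal.Quotient.mk (Ideal.span {F}) (rename some (C z)) := by
    rw [rename_C]
    rfl
  rw [h4, h1] at h3
  have h5 := h2 ⟨f - 1, by omega⟩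
  simp only at h5
  rw [h5] at h3
  simpa using h3

theorem socle_hyp (k : Type u) [Field k] {a b c : ℕ}
    (F : MvPolynomial (Option (Var a b c)) k) (f : ℕ) (h : Good k F f) (s : Hyp k F)
    (hs : s ∉ par k F) : ∃ t : Hyp k F, t * s - xi k F none ^ (f - 1) ∈ par k F := by
  classical
  obtain ⟨κ, hκ, h1, h2⟩ := exists_coord k F f h
  rw [par_coord k F f κ hκ h1 h2] at hs
  push Not at hs
  have hne : (Finset.univ.filter fun j : Fin f => constantCoeff (κ s j) ≠ 0).Nonempty := by
    obtain ⟨j, hj⟩ := hs
    exact ⟨j, by simpa using hj⟩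
  obtain ⟨j, hj, hmin⟩ := Finset.exists_min_image _ (fun j : Fin f => (j : ℕ)) hne
  rw [Finset.mem_filter] at hj
  have hj0 := hj.2
  have hlt : ∀ i : Fin f, (i : ℕ) < j → constantCoeff (κ s i) = 0 := by
    intro i hi
    by_contra hcon
    have := hmin i (by simpa using hcon)
    omega
  set x := xi k F none with hx
  refine ⟨algebraMap k (Hyp k F) (constantCoeff (κ s j))⁻¹ * x ^ (f - 1 - j), ?_⟩
  have hsum : (algebraMap k (Hyp k F) (constantCoeff (κ s j))⁻¹ * x ^ (f - 1 - j)) * s -
      x ^ (f - 1) = ∑ i : Fin f,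
        ((algebraMap k (Hyp k F) (constantCoeff (κ s j))⁻¹ * x ^ (f - 1 - j)) *
        (Ideal.Quotient.mk (Ideal.span {F}) (rename some (κ s i)) * x ^ (i : ℕ)) -
        if i = j then x ^ (f - 1) else 0) := by
    rw [Finset.sum_sub_distrib, Finset.sum_ite_eq' Finset.univ j, if_pos (Finset.mem_univ j),
      ← Finset.mul_sum]
    congr 2
    exact expand k F f κ hκ h1 h2 s
  rw [hsum]
  refine sum_mem fun i _ => ?_
  set q := κ s i with hq
  have hsplit : (Ideal.Quotient.mk (Ideal.span {F}) (rename some q) : Hyp k F) =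
      Ideal.Quotient.mk (Ideal.span {F}) (rename some (q - C (constantCoeff q))) +
        algebraMap k (Hyp k F) (constantCoeff q) := by
    rw [map_sub, map_sub, rename_C]
    have : (Ideal.Quotient.mk (Ideal.span {F}) (C (constantCoeff q)) : Hyp k F) =
      algebraMap k (Hyp k F) (constantCoeff q) := rfl
    rw [this]
    ring
  have hq' : (Ideal.Quotient.mk (Ideal.span {F}) (rename some (q - C (constantCoeff q))) :
      Hyp k F) ∈ par k F := const_par k F _ (by simp)
  have hrw : (algebraMap k (Hyp k F) (constantCoeff (κ s j))⁻¹ * x ^ (f - 1 - j)) *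
        (Ideal.Quotient.mk (Ideal.span {F}) (rename some q) * x ^ (i : ℕ)) -
        (if i = j then x ^ (f - 1) else 0) =
      (algebraMap k (Hyp k F) (constantCoeff (κ s j))⁻¹ * x ^ (f - 1 - j) * x ^ (i : ℕ)) *
        Ideal.Quotient.mk (Ideal.span {F}) (rename some (q - C (constantCoeff q))) +
      (algebraMap k (Hyp k F) ((constantCoeff (κ s j))⁻¹ * constantCoeff q) *
        (x ^ (f - 1 - j) * x ^ (i : ℕ)) - if i = j then x ^ (f - 1) else 0) := by
    rw [hsplit, map_mul]
    ring
  rw [hrw]
  refine add_mem (Ideal.mul_mem_left _ _ hq') ?_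
  rw [← pow_add]
  have hjf := j.2
  rcases lt_trichotomy (i : ℕ) (j : ℕ) with hij | hij | hij
  · have : i ≠ j := fun h => by rw [h] at hij; exact lt_irrefl _ hij
    rw [if_neg this, hq, hlt i hij]
    simp
  · have hij' : i = j := Fin.ext hij
    subst hij'
    rw [if_pos rfl, hq, inv_mul_cancel₀ hj0, map_one, one_mul,
      Nat.sub_add_cancel (by omega : (i : ℕ) ≤ f - 1), sub_self]
    exact zero_mem _
  · have : i ≠ j := fun h => by rw [h] at hij; exact lt_irrefl _ hij
    rw [if_neg this, sub_zero]
    refine Ideal.mul_mem_left _ _ ?_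
    have h6 : f - 1 - (j : ℕ) + i = f + (i - j - 1) := by omega
    rw [h6, pow_add]
    exact Ideal.mul_mem_right _ _ (x_pow_mem k F f h)

end Pool.Agent.FSig.HY
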