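import Pool.Agent.Work.MP_27623f_ag.HY.LocDefs

/-!
STUB ZeroG (size S).  A graded algebra is graded over (a subalgebra of) its degree zero part.

PROOF.  The carriers of `overZero ℬ R₀ h g` and `ℬ g` are the same set.  Graded monoid: from
`ℬ`.  Decomposition: the additive map `B → ⨁ g, overZero ℬ R₀ h g`, `s ↦ (decompose ℬ s g)_g`:
compose `DirectSum.decomposeAddEquiv ℬ` with `DirectSum.map` (or `DFinsupp.mapRange.addMonoidHom`)
of the identity maps `ℬ g → overZero ℬ R₀ h g`; use `DirectSum.Decomposition.ofAddHom` and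
extensionality on homogeneous elements (`DirectSum.decompose_of_mem`, `DirectSum.sum_support_of`).
-/

set_option autoImplicit false

namespace Pool.Agent.FSig.HY

theorem overZero_graded {k : Type*} {B : Type*} {G : Type*} [CommRing k] [CommRing B]
    [Algebra k B] [AddCommGroup G] [DecidableEq G] (ℬ : G → Submodule k B) [GradedAlgebra ℬ]
    (R₀ : Subalgebra k B) (h : ∀ s ∈ R₀, s ∈ ℬ 0) :
    Nonempty (GradedAlgebra (overZero ℬ R₀ h)) := by
  classical
  let e : ∀ g, ℬ g ≃+ overZero ℬ R₀ h g := fun g =>
    { toFun := fun s => ⟨s.1, s.2⟩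
      invFun := fun s => ⟨s.1, s.2⟩
      left_inv := fun _ => rfl
      right_inv := fun _ => rfl
      map_add' := fun _ _ => rfl }
  let E : (DirectSum G fun g => ℬ g) ≃+ (DirectSum G fun g => overZero ℬ R₀ h g) :=
    DFinsupp.mapRange.addEquiv e
  have hE : ∀ x, DirectSum.coeAddMonoidHom (overZero ℬ R₀ h) (E x) =
      DirectSum.coeAddMonoidHom ℬ x := by
    intro x
    induction x using DirectSum.induction_on with
    | zero => rw [map_zero, map_zero, map_zero]
    | of i x =>
      have h1 : E (DirectSum.of (fun g => ℬ g) i x) =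
          DirectSum.of (fun g => overZero ℬ R₀ h g) i (e i x) := by
        exact DFinsupp.mapRange_single (f := fun g s => e g s)
          (hf := fun g => map_zero (e g))
      rw [h1, DirectSum.coeAddMonoidHom_of, DirectSum.coeAddMonoidHom_of]
      rfl
    | add x y hx hy => rw [map_add, map_add, map_add, hx, hy]
  have hint : DirectSum.IsInternal (overZero ℬ R₀ h) := by
    have h1 := DirectSum.Decomposition.isInternal ℬ
    refine ⟨fun x y hxy => ?_, fun b => ?_⟩
    · obtain ⟨x, rfl⟩ := E.surjective x
      obtain ⟨y, rfl⟩ := E.surjective y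
      rw [hE, hE] at hxy
      rw [h1.1 hxy]
    · obtain ⟨x, rfl⟩ := h1.2 b
      exact ⟨E x, hE x⟩
  have hm : SetLike.GradedMonoid (overZero ℬ R₀ h) :=
    { one_mem := (SetLike.GradedOne.one_mem : (1 : B) ∈ ℬ 0)
      mul_mem := fun i j a b ha hb =>
        (SetLike.GradedMul.mul_mem (A := ℬ) (show a ∈ ℬ i from ha) (show b ∈ ℬ j from hb) :
          a * b ∈ ℬ (i + j)) }
  exact ⟨{ hm with
    toDecomposition := hint.chooseDecomposition }⟩

end Pool.Agent.FSig.HY
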