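import Pool.Agent.Work.MP_27623f_ag.HY.QuotG
import Pool.Agent.Work.MP_27623f_ag.HY.ZeroG
import Pool.Agent.Work.MP_27623f_ag.HY.LocG
import Pool.Agent.Work.MP_27623f_ag.HY.CoverLoc
import Pool.Agent.Work.MP_27623f_ag.HY.Ffin
import Pool.Agent.Work.MP_27623f_ag.HY.RegS
import Pool.Agent.Work.MP_27623f_ag.HY.InvZ
import Pool.Agent.Work.MP_27623f_ag.HY.MoMax
import Pool.Agent.Work.MP_27623f_ag.HY.Socle
import Pool.Agent.Work.MP_27623f_ag.HY.FreeBal
import Pool.Agent.Work.MP_27623f_ag.HY.MaxNe

/-!
MP_27623f_ag, explicit family: the data of `PreCover` for the hypersurface ring.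
-/

set_option autoImplicit false

namespace Pool.Agent.FSig.HY

open MvPolynomial

universe u

variable (k : Type u) [Field k] {a b c : ℕ}

attribute [local instance] MvPolynomial.weightedGradedAlgebra

theorem gr_graded (F : MvPolynomial (Option (Var a b c)) k) (f : ℕ) (h : Good k F f) :
    Nonempty (GradedAlgebra (gr k F)) := by
  refine quot_graded (weightedHomogeneousSubmodule k (wo (a := a) (b := b) (c := c)))
    (Ideal.span {F}) ?_
  refine Ideal.homogeneous_span _ _ ?_
  rintro s rfl
  exact ⟨(f : ℤ), h.hom⟩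

/-- The index of the variable number `i`. -/
noncomputable def ev (a b c : ℕ) : Fin (Fintype.card (Var a b c)) ≃ Var a b c :=
  (Fintype.equivFin (Var a b c)).symm

theorem span_range_eq (F : MvPolynomial (Option (Var a b c)) k) :
    Ideal.span (Set.range fun i => xi k F (some (ev a b c i))) = par k F := by
  unfold par
  congr 1
  ext s
  constructor
  · rintro ⟨i, rfl⟩
    exact ⟨ev a b c i, rfl⟩
  · rintro ⟨i, rfl⟩
    exact ⟨(ev a b c).symm i, by simp⟩

theorem preCover (ha : 1 ≤ a) (hb : 2 ≤ b) (F : MvPolynomial (Option (Var a b c)) k) (f : ℕ)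
    (hf : 2 ≤ f) (h : Good k F f) [GradedAlgebra (gr k F)] :
    PreCover (inv k F) (mo k F)
      (overZero (gr k F) (inv k F) (fun s hs => (mem_inv_iff k F s).1 hs))
      (fun i => xi k F (some (ev a b c i))) (fun i => wt (ev a b c i))
      (xi k F none ^ (f - 1)) ((f - 1 : ℕ) : ℤ) where
  inj := Subtype.val_injective
  zero := fun s hs => ⟨⟨s, (mem_inv_iff k F s).2 hs⟩, rfl⟩
  mem_x := fun i => ⟨X (some (ev a b c i)), isWeightedHomogeneous_X k _ _, rfl⟩
  reg := by
    intro i T hi s hs
    have himg : ((fun i => xi k F (some (ev a b c i))) '' (T : Set (Fin _))) =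
        (fun j : Var a b c => xi k F (some j)) '' ((T.map (ev a b c).toEmbedding : Finset _) :
          Set (Var a b c)) := by
      rw [Finset.coe_map, Set.image_image]
      rfl
    rw [himg] at hs ⊢
    refine reg_hyp k F f h (ev a b c i) _ ?_ s hs
    intro hmem
    obtain ⟨j, hj, hj2⟩ := Finset.mem_map.1 hmem
    exact hi (by rwa [← (ev a b c).injective hj2])
  primary := ⟨1, by
    rw [pow_one, span_range_eq]
    exact map_mo_le k F⟩
  mem_v := ⟨X none ^ (f - 1), by
    have h1 := (isWeightedHomogeneous_X k (wo (a := a) (b := b) (c := c)) none).pow (f - 1)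
    simpa [wo] using h1, by simp [xi]⟩
  v_not_mem := by
    intro r hr hmem
    rw [span_range_eq] at hmem
    obtain ⟨z, hz, hz2⟩ := exists_const k F r hr
    refine hz (v_not k F f h (by omega) z ?_)
    have h1 : algebraMap (inv k F) (Hyp k F) (r - algebraMap k (inv k F) z) ∈ par k F :=
      map_mo_le k F (Ideal.mem_map_of_mem _ hz2)
    have h2 : algebraMap k (Hyp k F) z * xi k F none ^ (f - 1) =
        algebraMap (inv k F) (Hyp k F) r * xi k F none ^ (f - 1) -
          xi k F none ^ (f - 1) *
            algebraMap (inv k F) (Hyp k F) (r - algebraMap k (inv k F) z) := by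
      rw [map_sub, ← IsScalarTower.algebraMap_apply]
      ring
    rw [h2]
    exact Ideal.sub_mem _ hmem (Ideal.mul_mem_left _ _ h1)
  socle := by
    intro s hs
    rw [span_range_eq] at hs ⊢
    exact socle_hyp k F f h s hs
  free := by
    intro i
    obtain ⟨N, hN⟩ := free_hyp k hb F f hf (ev a b c i)
    refine ⟨N, ?_⟩
    have h1 : ∏ j ∈ Finset.univ.erase i, xi k F (some (ev a b c j)) ^ N =
        ∏ j ∈ Finset.univ.erase (ev a b c i), xi k F (some j) ^ N := by
      refine Finset.prod_bij (fun j _ => ev a b c j) ?_ ?_ ?_ ?_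
      · intro j hj
        rw [Finset.mem_erase] at hj ⊢
        exact ⟨fun h2 => hj.1 ((ev a b c).injective h2), Finset.mem_univ _⟩
      · intro j _ j' _ hjj
        exact (ev a b c).injective hjj
      · intro j hj
        rw [Finset.mem_erase] at hj
        refine ⟨(ev a b c).symm j, ?_, by simp⟩
        rw [Finset.mem_erase]
        refine ⟨?_, Finset.mem_univ _⟩
        rintro rfl
        exact hj.1 (by simp)
      · intro j _
        rfl
    rw [h1]
    exact hN
  bal := by
    intro N
    obtain ⟨κ, hκ, hsum⟩ := bal_hyp (c := c) ha hb f N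
    refine ⟨fun i => κ (ev a b c i), fun i => hκ _, ?_⟩
    rw [← hsum]
    congr 1
    exact (ev a b c).sum_comp (fun j => κ j • wt j)

end Pool.Agent.FSig.HY
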