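import Pool.Agent.Work.MP_27623f_ag.HY.LocDefs

/-!
The quotient of a graded algebra by a homogeneous ideal is graded.
-/

set_option autoImplicit false

namespace Pool.Agent.FSig.HY

private theorem isInternal_quot {k : Type*} {A : Type*} {G : Type*} [CommRing k] [CommRing A]
    [Algebra k A] [AddCommGroup G] [DecidableEq G] (𝒜 : G → Submodule k A) [GradedAlgebra 𝒜]
    (I : Ideal A) (hI : I.IsHomogeneous 𝒜) :
    DirectSum.IsInternal (fun g => (𝒜 g).map (Ideal.Quotient.mkₐ k I).toLinearMap) := by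
  classical
  let π : A →ₗ[k] A ⧸ I := (Ideal.Quotient.mkₐ k I).toLinearMap
  let f : ∀ g : G, 𝒜 g →+ (𝒜 g).map π := fun g =>
    { toFun := fun a => ⟨π a, Submodule.mem_map_of_mem a.2⟩
      map_zero' := by
        apply Subtype.ext
        exact map_zero π
      map_add' := fun a b => by
        apply Subtype.ext
        exact map_add π (a : A) (b : A) }
  have hf : ∀ g (a : 𝒜 g), ((f g a : (𝒜 g).map π) : A ⧸ I) = π a := fun g a => rfl
  have hsurj : Function.Surjective (DirectSum.map f) := by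
    rw [DirectSum.map_surjective]
    rintro g ⟨_, a, ha, rfl⟩
    exact ⟨⟨a, ha⟩, rfl⟩
  have hcomp : ∀ y : DirectSum G (fun g => 𝒜 g),
      DirectSum.coeAddMonoidHom (fun g => (𝒜 g).map π) (DirectSum.map f y) =
        π (DirectSum.coeAddMonoidHom 𝒜 y) := by
    intro y
    induction y using DirectSum.induction_on with
    | zero => simp
    | of g a =>
      rw [DirectSum.map_of, DirectSum.coeAddMonoidHom_of, DirectSum.coeAddMonoidHom_of]
      exact hf g a
    | add x y hx hy => rw [map_add, map_add, hx, hy, map_add, map_add]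
  have hdec : ∀ a : A, DirectSum.coeAddMonoidHom 𝒜 (DirectSum.decompose 𝒜 a) = a := fun a =>
    (DirectSum.decompose 𝒜).left_inv a
  constructor
  · rw [injective_iff_map_eq_zero]
    intro x hx
    obtain ⟨y, rfl⟩ := hsurj x
    have h0 : π (DirectSum.coeAddMonoidHom 𝒜 y) = 0 := by
      rw [← hcomp y]
      exact hx
    have hmem : DirectSum.coeAddMonoidHom 𝒜 y ∈ I := Ideal.Quotient.eq_zero_iff_mem.mp h0
    have hy : DirectSum.decompose 𝒜 (DirectSum.coeAddMonoidHom 𝒜 y) = y :=
      (DirectSum.decompose 𝒜).right_inv y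
    refine DFinsupp.ext fun g => ?_
    apply Subtype.ext
    have h1 : ((DirectSum.decompose 𝒜 (DirectSum.coeAddMonoidHom 𝒜 y) g : 𝒜 g) : A) ∈ I :=
      hI g hmem
    rw [hy] at h1
    exact Ideal.Quotient.eq_zero_iff_mem.mpr h1
  · intro x
    obtain ⟨a, rfl⟩ := Ideal.Quotient.mk_surjective x
    refine ⟨DirectSum.map f (DirectSum.decompose 𝒜 a), ?_⟩
    have h1 := hcomp (DirectSum.decompose 𝒜 a)
    rw [hdec a] at h1
    exact h1

theorem quot_graded {k : Type*} {A : Type*} {G : Type*} [CommRing k] [CommRing A] [Algebra k A]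
    [AddCommGroup G] [DecidableEq G] (𝒜 : G → Submodule k A) [GradedAlgebra 𝒜] (I : Ideal A)
    (hI : I.IsHomogeneous 𝒜) :
    Nonempty (GradedAlgebra (fun g => (𝒜 g).map (Ideal.Quotient.mkₐ k I).toLinearMap)) := by
  have hm : SetLike.GradedMonoid
      (fun g => (𝒜 g).map (Ideal.Quotient.mkₐ k I).toLinearMap) :=
    { one_mem := ⟨1, SetLike.GradedOne.one_mem, map_one (Ideal.Quotient.mkₐ k I)⟩
      mul_mem := by
        rintro i j _ _ ⟨a, ha, rfl⟩ ⟨b, hb, rfl⟩
        exact ⟨a * b, SetLike.GradedMul.mul_mem ha hb, map_mul (Ideal.Quotient.mkₐ k I) a b⟩ }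
  exact ⟨(isInternal_quot 𝒜 I hI).gradedAlgebra⟩

end Pool.Agent.FSig.HY
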